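import Mathlib

set_option autoImplicit false
set_option linter.unusedSectionVars false

namespace Pool.Agent.H376R3.Bae

open Filter Topology

/-- the norming family -/
inductive Gd : (ℕ → ℝ) → Prop
  | base (A : Finset ℕ) (g : ℕ → ℝ) (hA : ∀ i ∈ A, A.card ≤ i + 1) (h1 : ∀ i, i ∉ A → g i = 0)
      (h2 : ∀ i, |g i| ≤ 1) : Gd g
  | comb (M : ℕ) (g h : ℕ → ℝ) (hg : Gd g) (hh : Gd h) (α β : ℝ) (hα : 0 ≤ α) (hβ : 0 ≤ β)
      (hαβ : α ^ 2 + β ^ 2 ≤ 1) : Gd (fun i => if i < M then α * g i else β * h i)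

lemma Gd.abs_le {g : ℕ → ℝ} (hg : Gd g) (i : ℕ) : |g i| ≤ 1 := by
  induction hg with
  | base A g hA h1 h2 => exact h2 i
  | comb M g h hg hh α β hα hβ hαβ ihg ihh =>
    have h1 : α ≤ 1 := by nlinarith
    have h2 : β ≤ 1 := by nlinarith
    simp only
    split_ifs
    · rw [abs_mul, abs_of_nonneg hα]
      nlinarith [abs_nonneg (g i)]
    · rw [abs_mul, abs_of_nonneg hβ]
      nlinarith [abs_nonneg (h i)]

lemma Gd.neg {g : ℕ → ℝ} (hg : Gd g) : Gd (fun i => -(g i)) := by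
  induction hg with
  | base A g hA h1 h2 =>
    refine Gd.base A _ hA (fun i hi => by rw [h1 i hi, neg_zero]) (fun i => by
      rw [abs_neg]; exact h2 i)
  | comb M g h hg hh α β hα hβ hαβ ihg ihh =>
    have := Gd.comb M _ _ ihg ihh α β hα hβ hαβ
    have h3 : (fun i => -(if i < M then α * g i else β * h i)) =
        fun i => if i < M then α * -(g i) else β * -(h i) := by
      funext i
      split_ifs <;> ring
    rw [h3]
    exact this

lemma Gd.zero : Gd (fun _ => 0) := Gd.base ∅ _ (by simp) (by simp) (by simp)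

/-- pairing -/
noncomputable def pr (g : ℕ → ℝ) : (ℕ →₀ ℝ) →ₗ[ℝ] ℝ := Finsupp.linearCombination ℝ g

lemma pr_apply (g : ℕ → ℝ) (y : ℕ →₀ ℝ) : pr g y = ∑ i ∈ y.support, y i * g i := by
  unfold pr
  rw [Finsupp.linearCombination_apply]
  rfl

lemma pr_eq (g : ℕ → ℝ) (y : ℕ →₀ ℝ) {s : Finset ℕ} (hs : y.support ⊆ s) :
    pr g y = ∑ i ∈ s, y i * g i := by
  rw [pr_apply]
  apply Finset.sum_subset hs
  intro i _ hi
  rw [Finsupp.notMem_support_iff.1 hi, zero_mul]

lemma pr_congr {g h : ℕ → ℝ} {y : ℕ →₀ ℝ} (H : ∀ i, y i * g i = y i * h i) : pr g y = pr h y := by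
  rw [pr_apply, pr_apply]
  exact Finset.sum_congr rfl (fun i _ => H i)

/-- head -/
noncomputable def Pt (M : ℕ) (y : ℕ →₀ ℝ) : ℕ →₀ ℝ := y.filter (fun i => i < M)

/-- tail -/
noncomputable def Tt (M : ℕ) (y : ℕ →₀ ℝ) : ℕ →₀ ℝ := y.filter (fun i => M ≤ i)

lemma Pt_apply (M : ℕ) (y : ℕ →₀ ℝ) (i : ℕ) : Pt M y i = if i < M then y i else 0 :=
  Finsupp.filter_apply _ _ _

lemma Tt_apply (M : ℕ) (y : ℕ →₀ ℝ) (i : ℕ) : Tt M y i = if M ≤ i then y i else 0 :=
  Finsupp.filter_apply _ _ _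

lemma Pt_add (M : ℕ) (y z : ℕ →₀ ℝ) : Pt M (y + z) = Pt M y + Pt M z := by
  ext i
  simp only [Pt_apply, Finsupp.add_apply]
  split_ifs <;> simp

lemma Tt_add (M : ℕ) (y z : ℕ →₀ ℝ) : Tt M (y + z) = Tt M y + Tt M z := by
  ext i
  simp only [Tt_apply, Finsupp.add_apply]
  split_ifs <;> simp

lemma Pt_smul (M : ℕ) (c : ℝ) (y : ℕ →₀ ℝ) : Pt M (c • y) = c • Pt M y := by
  ext i
  simp only [Pt_apply, Finsupp.smul_apply, smul_eq_mul]
  split_ifs <;> simp

lemma Tt_smul (M : ℕ) (c : ℝ) (y : ℕ →₀ ℝ) : Tt M (c • y) = c • Tt M y := by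
  ext i
  simp only [Tt_apply, Finsupp.smul_apply, smul_eq_mul]
  split_ifs <;> simp

lemma Pt_add_Tt (M : ℕ) (y : ℕ →₀ ℝ) : Pt M y + Tt M y = y := by
  ext i
  simp only [Tt_apply, Pt_apply, Finsupp.add_apply]
  by_cases h : i < M
  · rw [if_pos h, if_neg (by omega), add_zero]
  · rw [if_neg h, if_pos (by omega), zero_add]

lemma pr_comb (M : ℕ) (g h : ℕ → ℝ) (α β : ℝ) (y : ℕ →₀ ℝ) :
    pr (fun i => if i < M then α * g i else β * h i) y =
      α * pr g (Pt M y) + β * pr h (Tt M y) := by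
  have h1 : (Pt M y).support ⊆ y.support := by
    intro i hi
    rw [Finsupp.mem_support_iff] at hi ⊢
    intro h0
    apply hi
    rw [Pt_apply, h0, ite_self]
  have h2 : (Tt M y).support ⊆ y.support := by
    intro i hi
    rw [Finsupp.mem_support_iff] at hi ⊢
    intro h0
    apply hi
    rw [Tt_apply, h0, ite_self]
  rw [pr_apply, pr_eq g _ h1, pr_eq h _ h2, Finset.mul_sum, Finset.mul_sum,
    ← Finset.sum_add_distrib]
  apply Finset.sum_congr rfl
  intro i _
  rw [Pt_apply, Tt_apply]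
  by_cases h : i < M
  · simp only [if_pos h, if_neg (show ¬ M ≤ i by omega)]
    ring
  · simp only [if_neg h, if_pos (show M ≤ i by omega)]
    ring

lemma abs_pr_le {g : ℕ → ℝ} (hg : ∀ i, |g i| ≤ 1) (y : ℕ →₀ ℝ) :
    |pr g y| ≤ ∑ i ∈ y.support, |y i| := by
  rw [pr_apply]
  refine (Finset.abs_sum_le_sum_abs _ _).trans (Finset.sum_le_sum fun i _ => ?_)
  rw [abs_mul]
  nlinarith [hg i, abs_nonneg (y i)]

/-- the norm -/
noncomputable def nm (y : ℕ →₀ ℝ) : ℝ := sSup {t | ∃ g, Gd g ∧ t = pr g y}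

lemma nm_bdd (y : ℕ →₀ ℝ) : BddAbove {t | ∃ g, Gd g ∧ t = pr g y} := by
  refine ⟨∑ i ∈ y.support, |y i|, ?_⟩
  rintro _ ⟨g, hg, rfl⟩
  exact (le_abs_self _).trans (abs_pr_le hg.abs_le y)

lemma nm_ne (y : ℕ →₀ ℝ) : {t | ∃ g, Gd g ∧ t = pr g y}.Nonempty := ⟨_, _, Gd.zero, rfl⟩

lemma pr_le_nm {g : ℕ → ℝ} (hg : Gd g) (y : ℕ →₀ ℝ) : pr g y ≤ nm y :=
  le_csSup (nm_bdd y) ⟨g, hg, rfl⟩

lemma nm_le {y : ℕ →₀ ℝ} {C : ℝ} (h : ∀ g, Gd g → pr g y ≤ C) : nm y ≤ C := by
  refine csSup_le (nm_ne y) ?_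
  rintro _ ⟨g, hg, rfl⟩
  exact h g hg

lemma exists_lt_pr {y : ℕ →₀ ℝ} {c : ℝ} (h : c < nm y) : ∃ g, Gd g ∧ c < pr g y := by
  obtain ⟨_, ⟨g, hg, rfl⟩, h2⟩ := exists_lt_of_lt_csSup (nm_ne y) h
  exact ⟨g, hg, h2⟩

lemma pr_neg (g : ℕ → ℝ) (y : ℕ →₀ ℝ) : pr (fun i => -(g i)) y = - pr g y := by
  rw [pr_apply, pr_apply, ← Finset.sum_neg_distrib]
  exact Finset.sum_congr rfl (fun i _ => by ring)

lemma abs_pr_le_nm {g : ℕ → ℝ} (hg : Gd g) (y : ℕ →₀ ℝ) : |pr g y| ≤ nm y := by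
  rw [abs_le]
  constructor
  · have := pr_le_nm hg.neg y
    rw [pr_neg] at this
    linarith
  · exact pr_le_nm hg y

lemma nm_nonneg (y : ℕ →₀ ℝ) : 0 ≤ nm y := (abs_nonneg _).trans (abs_pr_le_nm Gd.zero y)

/-- Schreier sums are dominated by the norm -/
lemma sum_abs_le_nm (A : Finset ℕ) (hA : ∀ i ∈ A, A.card ≤ i + 1) (y : ℕ →₀ ℝ) :
    ∑ i ∈ A, |y i| ≤ nm y := by
  classical
  have h1 : Gd (fun i => if i ∈ A then SignType.sign (y i) else (0 : ℝ)) := by
    refine Gd.base A _ hA (fun i hi => by rw [if_neg hi]) (fun i => ?_)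
    split_ifs
    · rcases lt_trichotomy (y i) 0 with h | h | h
      · simp [sign_neg h]
      · simp [h]
      · simp [sign_pos h]
    · simp
  refine le_trans (le_of_eq ?_) (pr_le_nm h1 y)
  rw [pr_eq _ y (s := A ∪ y.support) Finset.subset_union_right,
    ← Finset.sum_subset (Finset.subset_union_left (s₁ := A) (s₂ := y.support))]
  · apply Finset.sum_congr rfl
    intro i hi
    rw [if_pos hi, self_mul_sign]
  · intro i _ hi
    rw [if_neg hi, mul_zero]

lemma abs_apply_le_nm (y : ℕ →₀ ℝ) (i : ℕ) : |y i| ≤ nm y := by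
  have := sum_abs_le_nm {i} (by simp) y
  simpa using this

lemma nm_add (y z : ℕ →₀ ℝ) : nm (y + z) ≤ nm y + nm z := by
  apply nm_le
  intro g hg
  rw [map_add]
  exact add_le_add (pr_le_nm hg y) (pr_le_nm hg z)

lemma nm_smul_le (c : ℝ) (y : ℕ →₀ ℝ) : nm (c • y) ≤ |c| * nm y := by
  apply nm_le
  intro g hg
  rw [map_smul, smul_eq_mul]
  calc c * pr g y ≤ |c * pr g y| := le_abs_self _
    _ = |c| * |pr g y| := abs_mul _ _
    _ ≤ |c| * nm y := by
      gcongr
      exact abs_pr_le_nm hg y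

lemma nm_smul (c : ℝ) (y : ℕ →₀ ℝ) : nm (c • y) = |c| * nm y := by
  apply le_antisymm (nm_smul_le c y)
  by_cases hc : c = 0
  · subst hc
    rw [abs_zero, zero_mul]
    exact nm_nonneg _
  · have h1 := nm_smul_le c⁻¹ (c • y)
    rw [smul_smul, inv_mul_cancel₀ hc, one_smul, abs_inv] at h1
    have hc' : 0 < |c| := abs_pos.2 hc
    calc |c| * nm y ≤ |c| * (|c|⁻¹ * nm (c • y)) := by gcongr
      _ = nm (c • y) := by field_simp

lemma nm_eq_zero {y : ℕ →₀ ℝ} (h : nm y = 0) : y = 0 := by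
  ext i
  have := abs_apply_le_nm y i
  rw [h] at this
  exact abs_eq_zero.1 (le_antisymm this (abs_nonneg _))

lemma nm_zero : nm 0 = 0 := by
  apply le_antisymm _ (nm_nonneg _)
  apply nm_le
  intro g _
  rw [map_zero]

lemma nm_single (i : ℕ) : nm (Finsupp.single i 1) = 1 := by
  apply le_antisymm
  · apply nm_le
    intro g hg
    unfold pr
    rw [Finsupp.linearCombination_single, one_smul]
    exact (le_abs_self _).trans (hg.abs_le i)
  · have := abs_apply_le_nm (Finsupp.single i 1) i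
    simpa using this

/-- lower `2`-estimate -/
lemma nm_lower (M : ℕ) (y : ℕ →₀ ℝ) : nm (Pt M y) ^ 2 + nm (Tt M y) ^ 2 ≤ nm y ^ 2 := by
  set a := nm (Pt M y) with ha
  set b := nm (Tt M y) with hb
  have ha0 : 0 ≤ a := nm_nonneg _
  have hb0 : 0 ≤ b := nm_nonneg _
  have hy0 : 0 ≤ nm y := nm_nonneg _
  set s := Real.sqrt (a ^ 2 + b ^ 2) with hs
  have hs2 : s ^ 2 = a ^ 2 + b ^ 2 := Real.sq_sqrt (by positivity)
  have hs0 : 0 ≤ s := Real.sqrt_nonneg _
  rcases hs0.eq_or_lt with h0 | hpos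
  · rw [← hs2, ← h0, zero_pow two_ne_zero]
    positivity
  have key : s ≤ nm y := by
    apply le_of_forall_pos_le_add
    intro ε hε
    obtain ⟨g, hg, h1⟩ := exists_lt_pr (show a - ε / 2 < nm (Pt M y) by rw [← ha]; linarith)
    obtain ⟨h, hh, h2⟩ := exists_lt_pr (show b - ε / 2 < nm (Tt M y) by rw [← hb]; linarith)
    have h3 := pr_le_nm (Gd.comb M g h hg hh (a / s) (b / s) (by positivity) (by positivity) (by
      rw [div_pow, div_pow, ← add_div, hs2, div_self]
      rw [← hs2]; positivity)) y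
    rw [pr_comb] at h3
    have h4 : a / s ≤ 1 := by
      rw [div_le_one hpos]
      apply Real.le_sqrt_of_sq_le
      nlinarith
    have h5 : b / s ≤ 1 := by
      rw [div_le_one hpos]
      apply Real.le_sqrt_of_sq_le
      nlinarith
    have h6 : 0 ≤ a / s := by positivity
    have h7 : 0 ≤ b / s := by positivity
    have h8 : s = a / s * a + b / s * b := by
      have : a / s * a + b / s * b = (a ^ 2 + b ^ 2) / s := by ring
      rw [this, ← hs2]
      field_simp
    nlinarith [mul_le_mul_of_nonneg_left h1.le h6, mul_le_mul_of_nonneg_left h2.le h7]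
  rw [← hs2]
  exact pow_le_pow_left₀ hs0 key 2

lemma nm_Pt_le (M : ℕ) (y : ℕ →₀ ℝ) : nm (Pt M y) ≤ nm y := by
  have := nm_lower M y
  have h1 := sq_nonneg (nm (Tt M y))
  exact le_of_sq_le_sq (by linarith) (nm_nonneg y)

lemma nm_Tt_le (M : ℕ) (y : ℕ →₀ ℝ) : nm (Tt M y) ≤ nm y := by
  have := nm_lower M y
  have h1 := sq_nonneg (nm (Pt M y))
  exact le_of_sq_le_sq (by linarith) (nm_nonneg y)

lemma cs_aux {a s α β : ℝ} (h : α ^ 2 + β ^ 2 ≤ 1) :
    α * a + β * s ≤ Real.sqrt (a ^ 2 + s ^ 2) := by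
  apply Real.le_sqrt_of_sq_le
  have h1 : (α * a + β * s) ^ 2 ≤ (α ^ 2 + β ^ 2) * (a ^ 2 + s ^ 2) := by
    nlinarith [sq_nonneg (α * s - β * a)]
  have h2 : 0 ≤ a ^ 2 + s ^ 2 := by positivity
  nlinarith

/-- upper `2`-estimate up to an error -/
lemma pr_upper {N : ℕ} {c : ℝ} (hc : 0 ≤ c) {g : ℕ → ℝ} (hg : Gd g) : ∀ z z' : ℕ →₀ ℝ,
    (∀ i, N ≤ i → z i = 0) → (∀ i, i < N → z' i = 0) → (∀ i, |z' i| ≤ c) →
    pr g (z + z') ≤ Real.sqrt (nm z ^ 2 + nm z' ^ 2) + N * c := by
  induction hg with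
  | base A g hA h1 h2 =>
    intro z z' hz hz' hzc
    have hg : Gd g := Gd.base A g hA h1 h2
    rw [map_add]
    by_cases hex : ∃ i ∈ A, i < N
    · obtain ⟨i, hi, hiN⟩ := hex
      have h3 : pr g z ≤ Real.sqrt (nm z ^ 2 + nm z' ^ 2) := by
        refine (pr_le_nm hg z).trans (Real.le_sqrt_of_sq_le ?_)
        nlinarith [sq_nonneg (nm z')]
      have h4 : pr g z' ≤ N * c := by
        rw [pr_eq g z' (s := A ∪ z'.support) Finset.subset_union_right,
          ← Finset.sum_subset (Finset.subset_union_left (s₁ := A) (s₂ := z'.support))]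
        · calc ∑ i ∈ A, z' i * g i ≤ ∑ i ∈ A, c := by
                apply Finset.sum_le_sum
                intro j _
                calc z' j * g j ≤ |z' j * g j| := le_abs_self _
                  _ = |z' j| * |g j| := abs_mul _ _
                  _ ≤ c * 1 := mul_le_mul (hzc j) (h2 j) (abs_nonneg _) hc
                  _ = c := mul_one c
            _ = A.card * c := by rw [Finset.sum_const, nsmul_eq_mul]
            _ ≤ N * c := by
                have := hA i hi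
                have h5 : (A.card : ℝ) ≤ N := by exact_mod_cast (by omega : A.card ≤ N)
                gcongr
        · intro j _ hj
          rw [h1 j hj, mul_zero]
      linarith
    · push Not at hex
      have h3 : pr g z = 0 := by
        rw [pr_apply]
        apply Finset.sum_eq_zero
        intro i _
        by_cases hi : i ∈ A
        · rw [hz i (hex i hi), zero_mul]
        · rw [h1 i hi, mul_zero]
      have h4 : pr g z' ≤ Real.sqrt (nm z ^ 2 + nm z' ^ 2) := by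
        refine (pr_le_nm hg z').trans (Real.le_sqrt_of_sq_le ?_)
        nlinarith [sq_nonneg (nm z)]
      have h5 : (0 : ℝ) ≤ N * c := by positivity
      linarith
  | comb M g h hg hh α β hα hβ hαβ ihg ihh =>
    intro z z' hz hz' hzc
    have hNc : (0 : ℝ) ≤ N * c := by positivity
    have hα1 : α ≤ 1 := by nlinarith
    have hβ1 : β ≤ 1 := by nlinarith
    rw [pr_comb]
    by_cases hMN : M ≤ N
    · have e1 : Pt M (z + z') = Pt M z := by
        ext i
        simp only [Pt_apply, Finsupp.add_apply]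
        split_ifs with hi
        · rw [hz' i (by omega), add_zero]
        · rfl
      have e2 : Tt M (z + z') = Tt M z + z' := by
        ext i
        simp only [Tt_apply, Finsupp.add_apply]
        split_ifs with hi
        · rfl
        · rw [hz' i (by omega), add_zero]
      rw [e1, e2]
      have h3 := pr_le_nm hg (Pt M z)
      have h4 := ihh (Tt M z) z' (fun i hi => by
        rw [Tt_apply, hz i hi, ite_self]) hz' hzc
      have h5 := cs_aux (a := nm (Pt M z)) (s := Real.sqrt (nm (Tt M z) ^ 2 + nm z' ^ 2)) hαβ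
      rw [Real.sq_sqrt (by positivity)] at h5
      have h6 : Real.sqrt (nm (Pt M z) ^ 2 + (nm (Tt M z) ^ 2 + nm z' ^ 2)) ≤
          Real.sqrt (nm z ^ 2 + nm z' ^ 2) := by
        apply Real.sqrt_le_sqrt
        have := nm_lower M z
        linarith
      have h7 := mul_le_mul_of_nonneg_left h3 hα
      have h8 := mul_le_mul_of_nonneg_left h4 hβ
      have h9 : β * (N * c) ≤ N * c := by nlinarith
      linarith
    · have e1 : Pt M (z + z') = z + Pt M z' := by
        ext i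
        simp only [Pt_apply, Finsupp.add_apply]
        split_ifs with hi
        · rfl
        · rw [hz i (by omega), add_zero]
      have e2 : Tt M (z + z') = Tt M z' := by
        ext i
        simp only [Tt_apply, Finsupp.add_apply]
        split_ifs with hi
        · rw [hz i (by omega), zero_add]
        · rfl
      rw [e1, e2]
      have h3 := pr_le_nm hh (Tt M z')
      have h4 := ihg z (Pt M z') hz (fun i hi => by
        rw [Pt_apply, hz' i hi, ite_self]) (fun i => by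
          rw [Pt_apply]
          split_ifs
          · exact hzc i
          · simpa using hc)
      have h5 := cs_aux (a := nm (Tt M z')) (s := Real.sqrt (nm z ^ 2 + nm (Pt M z') ^ 2))
        (show β ^ 2 + α ^ 2 ≤ 1 by linarith)
      rw [Real.sq_sqrt (by positivity)] at h5
      have h6 : Real.sqrt (nm (Tt M z') ^ 2 + (nm z ^ 2 + nm (Pt M z') ^ 2)) ≤
          Real.sqrt (nm z ^ 2 + nm z' ^ 2) := by
        apply Real.sqrt_le_sqrt
        have := nm_lower M z'
        linarith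
      have h7 := mul_le_mul_of_nonneg_left h3 hβ
      have h8 := mul_le_mul_of_nonneg_left h4 hα
      have h9 : α * (N * c) ≤ N * c := by nlinarith
      linarith

lemma nm_upper {N : ℕ} {c : ℝ} (hc : 0 ≤ c) (z z' : ℕ →₀ ℝ)
    (hz : ∀ i, N ≤ i → z i = 0) (hz' : ∀ i, i < N → z' i = 0) (hzc : ∀ i, |z' i| ≤ c) :
    nm (z + z') ≤ Real.sqrt (nm z ^ 2 + nm z' ^ 2) + N * c :=
  nm_le fun _ hg => pr_upper hc hg z z' hz hz' hzc

end Pool.Agent.H376R3.Bae
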