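import Mathlib

set_option autoImplicit false

namespace Pool.Agent.H376R3.CK

open Cardinal Set

/-- index set of cardinality continuum -/
abbrev G : Type := ℕ → Bool
/-- the Cantor cube of weight continuum -/
abbrev K : Type := G → Bool

/-- dependence on a set of coordinates -/
def Dep (f : K → ℝ) (S : Set G) : Prop := ∀ x y : K, (∀ γ ∈ S, x γ = y γ) → f x = f y

/-- the algebra of functions depending on countably many coordinates -/
def algA : Subalgebra ℝ C(K, ℝ) where
  carrier := {f | ∃ S : Set G, S.Countable ∧ Dep f S}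
  mul_mem' := by
    rintro f g ⟨S, hS, hf⟩ ⟨T, hT, hg⟩
    refine ⟨S ∪ T, hS.union hT, fun x y h => ?_⟩
    have h1 := hf x y (fun γ hγ => h γ (Or.inl hγ))
    have h2 := hg x y (fun γ hγ => h γ (Or.inr hγ))
    simp [h1, h2]
  add_mem' := by
    rintro f g ⟨S, hS, hf⟩ ⟨T, hT, hg⟩
    refine ⟨S ∪ T, hS.union hT, fun x y h => ?_⟩
    have h1 := hf x y (fun γ hγ => h γ (Or.inl hγ))
    have h2 := hg x y (fun γ hγ => h γ (Or.inr hγ))
    simp [h1, h2]
  algebraMap_mem' := by
    intro c
    refine ⟨∅, countable_empty, fun x y _ => rfl⟩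

/-- coordinate sign function -/
def sgn (γ : G) : C(K, ℝ) :=
  ⟨fun x => if x γ then 1 else -1,
    (continuous_of_discreteTopology (f := fun b : Bool => if b then (1 : ℝ) else -1)).comp
      (continuous_apply γ)⟩

lemma sgn_apply (γ : G) (x : K) : sgn γ x = if x γ then 1 else -1 := rfl

lemma sgn_dep (γ : G) : Dep (sgn γ) {γ} := by
  intro x y h
  have := h γ rfl
  rw [sgn_apply, sgn_apply, this]

lemma algA_sep : algA.SeparatesPoints := by
  intro x y hxy
  have : ∃ γ, x γ ≠ y γ := by
    by_contra hcon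
    push Not at hcon
    exact hxy (funext hcon)
  obtain ⟨γ, hγ⟩ := this
  refine ⟨sgn γ, ⟨sgn γ, ⟨{γ}, countable_singleton γ, sgn_dep γ⟩, rfl⟩, ?_⟩
  rw [sgn_apply, sgn_apply]
  cases hx : x γ <;> cases hy : y γ <;> simp_all
  · norm_num
  · norm_num

lemma algA_closed : IsClosed (algA : Set C(K, ℝ)) := by
  apply isSeqClosed_iff_isClosed.1
  intro f g hf hg
  choose S hS hD using hf
  refine ⟨⋃ n, S n, countable_iUnion hS, fun x y h => ?_⟩
  have h1 : Filter.Tendsto (fun n => f n x) Filter.atTop (nhds (g x)) :=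
    ((continuous_eval_const (F := C(K, ℝ)) x).tendsto g).comp hg
  have h2 : Filter.Tendsto (fun n => f n y) Filter.atTop (nhds (g y)) :=
    ((continuous_eval_const (F := C(K, ℝ)) y).tendsto g).comp hg
  have h3 : (fun n => f n x) = fun n => f n y := by
    funext n
    exact hD n x y (fun γ hγ => h γ (mem_iUnion.2 ⟨n, hγ⟩))
  rw [h3] at h1
  exact tendsto_nhds_unique h1 h2

lemma exists_dep (f : C(K, ℝ)) : ∃ S : Set G, S.Countable ∧ Dep f S := by
  have h := ContinuousMap.subalgebra_topologicalClosure_eq_top_of_separatesPoints algA algA_sep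
  have h2 : f ∈ algA.topologicalClosure := by
    rw [h]
    exact Algebra.mem_top
  have h3 : f ∈ closure (algA : Set C(K, ℝ)) := h2
  rw [algA_closed.closure_eq] at h3
  exact h3

lemma norm_add_sgn (f : C(K, ℝ)) (S : Set G) (hf : Dep f S) (γ : G) (hγ : γ ∉ S) :
    ‖f‖ + 1 ≤ ‖f + sgn γ‖ := by
  classical
  have key : ∀ x : K, ‖f x‖ ≤ ‖f + sgn γ‖ - 1 := by
    intro x
    let b : Bool := decide (0 ≤ f x)
    let x' : K := Function.update x γ b
    have h1 : f x' = f x := by
      apply hf
      intro δ hδ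
      have : δ ≠ γ := fun h => hγ (h ▸ hδ)
      simp [x', Function.update_of_ne this]
    have h2 : x' γ = b := by simp [x']
    have h3 := (f + sgn γ).norm_coe_le_norm x'
    have h4 : (f + sgn γ) x' = f x + (if b then 1 else -1) := by
      rw [ContinuousMap.add_apply, h1, sgn_apply, h2]
    rw [h4] at h3
    rw [Real.norm_eq_abs] at h3 ⊢
    by_cases h0 : 0 ≤ f x
    · have hb : b = true := by simp [b, h0]
      rw [hb] at h3
      simp only [if_true] at h3
      rw [abs_of_nonneg h0]
      rw [abs_of_nonneg (by linarith)] at h3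
      linarith
    · have hb : b = false := by simp [b, h0]
      rw [hb] at h3
      push Not at h0
      simp only [Bool.false_eq_true, if_false] at h3
      rw [abs_of_neg h0]
      rw [abs_of_neg (by linarith)] at h3
      linarith
  have h0 : 0 ≤ ‖f + sgn γ‖ - 1 := le_trans (norm_nonneg _) (key (fun _ => true))
  have := (ContinuousMap.norm_le f h0).2 key
  linarith

lemma norm_sgn_le (γ : G) : ‖sgn γ‖ ≤ 1 := by
  rw [ContinuousMap.norm_le _ zero_le_one]
  intro x
  rw [sgn_apply]
  split_ifs <;> simp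

/-- countable index set -/
abbrev P : Type := Σ n : ℕ, ((Fin n → Bool) → Bool)

/-- the countable dense set -/
def dd (p : P) : K := fun a => p.2 (fun i => a i)

lemma exists_sep (I : Finset G) : ∃ n : ℕ, ∀ a ∈ I, ∀ b ∈ I, (∀ i < n, a i = b i) → a = b := by
  classical
  let k : G × G → ℕ := fun p => if h : ∃ k, p.1 k ≠ p.2 k then Nat.find h else 0
  refine ⟨(I ×ˢ I).sup k + 1, fun a ha b hb hab => ?_⟩
  by_contra hne
  have hex : ∃ k, a k ≠ b k := by
    by_contra hcon
    push Not at hcon
    exact hne (funext hcon)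
  have hk : k (a, b) = Nat.find hex := by
    simp only [k]
    rw [dif_pos hex]
  have h1 : k (a, b) ≤ (I ×ˢ I).sup k := Finset.le_sup (f := k) (Finset.mk_mem_product ha hb)
  have h2 := hab (k (a, b)) (Nat.lt_succ_of_le h1)
  rw [hk] at h2
  exact Nat.find_spec hex h2

lemma dense_dd : Dense (range dd) := by
  classical
  intro x
  rw [mem_closure_iff_nhds]
  intro U hU
  rw [nhds_pi, Filter.mem_pi] at hU
  obtain ⟨I, hI, t, ht, hsub⟩ := hU
  obtain ⟨n, hn⟩ := exists_sep hI.toFinset
  let φ : (Fin n → Bool) → Bool := fun u =>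
    if h : ∃ a ∈ hI.toFinset, ∀ i : Fin n, a i = u i then x h.choose else false
  refine ⟨dd ⟨n, φ⟩, hsub ?_, ⟨⟨n, φ⟩, rfl⟩⟩
  intro a ha
  have ha' : a ∈ hI.toFinset := hI.mem_toFinset.2 ha
  have hex : ∃ a' ∈ hI.toFinset, ∀ i : Fin n, a' i = a i := ⟨a, ha', fun i => rfl⟩
  have h1 : dd ⟨n, φ⟩ a = x hex.choose := by
    change φ (fun i => a i) = _
    simp only [φ]
    rw [dif_pos hex]
  have h2 : hex.choose = a := by
    apply hn _ hex.choose_spec.1 _ ha'
    intro i hi
    exact hex.choose_spec.2 ⟨i, hi⟩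
  rw [h1, h2]
  exact mem_of_mem_nhds (ht a)

lemma mk_CK : #C(K, ℝ) ≤ 𝔠 := by
  have hinj : Function.Injective (fun (f : C(K, ℝ)) (p : P) => f (dd p)) := by
    intro f g h
    apply ContinuousMap.coe_injective
    apply Continuous.ext_on dense_dd f.continuous g.continuous
    rintro _ ⟨p, rfl⟩
    exact congrFun h p
  refine (Cardinal.mk_le_of_injective hinj).trans ?_
  have h1 : #(P → ℝ) = 𝔠 ^ #P := by
    rw [← Cardinal.mk_real, Cardinal.power_def]
  rw [h1]
  calc 𝔠 ^ #P ≤ 𝔠 ^ ℵ₀ := Cardinal.power_le_power_left Cardinal.continuum_ne_zero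
        (Cardinal.mk_le_aleph0)
    _ = 𝔠 := Cardinal.continuum_power_aleph0

end Pool.Agent.H376R3.CK
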