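import Mathlib

/-!
# Invariant strictly convex renormings

Let `T` be a surjective linear isometry of a separable Banach space `X`.  Then `X` has an
equivalent strictly convex norm which is `T`-invariant.

* For commuting contractions `a`, `b` one has
  `‖(a - b) (a + b)^(2m) w‖ ≤ 2 binom(2m, m) ‖w‖` (total variation of the binomial distribution).
* Hence, if `u`, `v` lie in the closure of `{a w : a in A}`, `A` = contractions in the bicommutant
  of `T`, and `u + v = 2 w`, then `u = v`.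
* If all `T`-invariant continuous seminorms are additive on the pair `(u, v)`, then (taking maxima
  of seminorms) they are proportional, and Hahn-Banach puts the normalised vectors in the closure
  above; so they coincide.
* The Lindelof property gives countably many invariant seminorms.
-/

set_option autoImplicit false

open Filter Topology Set

namespace Pool.Agent.H376R3.InvSC

section abel

variable {V : Type} [NormedAddCommGroup V] [NormedSpace ℝ V]

theorem abel_up (e : ℕ → V) (M : ℝ) (he : ∀ k, ‖e k‖ ≤ M) (c : ℕ → ℝ) (hc0 : 0 ≤ c 0) :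
    ∀ j : ℕ, (∀ k < j, c k ≤ c (k + 1)) →
      ‖∑ k ∈ Finset.range (j + 1), c k • (e (k + 1) - e k) - c j • e (j + 1)‖ ≤ c j * M := by
  intro j
  induction j with
  | zero =>
    intro _
    simp only [zero_add, Finset.range_one, Finset.sum_singleton]
    have : c 0 • (e 1 - e 0) - c 0 • e 1 = -(c 0 • e 0) := by
      rw [smul_sub]; abel
    rw [this, norm_neg, norm_smul, Real.norm_of_nonneg hc0]
    exact mul_le_mul_of_nonneg_left (he 0) hc0
  | succ j ih =>
    intro h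
    have h1 := ih (fun k hk => h k (by omega))
    rw [Finset.sum_range_succ]
    have : (∑ k ∈ Finset.range (j + 1), c k • (e (k + 1) - e k)) +
        c (j + 1) • (e (j + 1 + 1) - e (j + 1)) - c (j + 1) • e (j + 1 + 1) =
        (∑ k ∈ Finset.range (j + 1), c k • (e (k + 1) - e k) - c j • e (j + 1)) -
          (c (j + 1) - c j) • e (j + 1) := by
      rw [smul_sub, sub_smul]; abel
    rw [this]
    have h2 : 0 ≤ c (j + 1) - c j := sub_nonneg.2 (h j (by omega))
    calc _ ≤ _ := norm_sub_le _ _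
      _ ≤ c j * M + (c (j + 1) - c j) * M := by
          refine add_le_add h1 ?_
          rw [norm_smul, Real.norm_of_nonneg h2]
          exact mul_le_mul_of_nonneg_left (he _) h2
      _ = _ := by ring

theorem abel_down (e : ℕ → V) (M : ℝ) (he : ∀ k, ‖e k‖ ≤ M) (c : ℕ → ℝ) (m : ℕ) :
    ∀ i : ℕ, (∀ k < i, c (m + k + 1) ≤ c (m + k)) →
      ‖c m • e (m + 1) + ∑ k ∈ Finset.range i, c (m + 1 + k) • (e (m + 1 + k + 1) - e (m + 1 + k)) -
        c (m + i) • e (m + i + 1)‖ ≤ (c m - c (m + i)) * M := by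
  intro i
  induction i with
  | zero => intro _; simp
  | succ i ih =>
    intro h
    have h1 := ih (fun k hk => h k (by omega))
    rw [Finset.sum_range_succ]
    have e1 : m + 1 + i = m + i + 1 := by omega
    have e2 : m + (i + 1) = m + i + 1 := by omega
    rw [e1, e2]
    have : c m • e (m + 1) + (∑ k ∈ Finset.range i,
        c (m + 1 + k) • (e (m + 1 + k + 1) - e (m + 1 + k)) +
        c (m + i + 1) • (e (m + i + 1 + 1) - e (m + i + 1))) - c (m + i + 1) • e (m + i + 1 + 1) =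
        (c m • e (m + 1) + ∑ k ∈ Finset.range i,
          c (m + 1 + k) • (e (m + 1 + k + 1) - e (m + 1 + k)) - c (m + i) • e (m + i + 1)) +
          (c (m + i) - c (m + i + 1)) • e (m + i + 1) := by
      rw [smul_sub, sub_smul]; abel
    rw [this]
    have h2 : 0 ≤ c (m + i) - c (m + i + 1) := sub_nonneg.2 (h i (by omega))
    calc _ ≤ _ := norm_add_le _ _
      _ ≤ (c m - c (m + i)) * M + (c (m + i) - c (m + i + 1)) * M := by
          refine add_le_add h1 ?_
          rw [norm_smul, Real.norm_of_nonneg h2]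
          exact mul_le_mul_of_nonneg_left (he _) h2
      _ = _ := by ring

theorem abel_bound (e : ℕ → V) (M : ℝ) (he : ∀ k, ‖e k‖ ≤ M) (m : ℕ) :
    ‖∑ k ∈ Finset.range (2 * m + 1), ((2 * m).choose k : ℝ) • (e (k + 1) - e k)‖ ≤
      2 * (Nat.centralBinom m : ℝ) * M := by
  set c : ℕ → ℝ := fun k => ((2 * m).choose k : ℝ) with hc
  have hM : 0 ≤ M := (norm_nonneg _).trans (he 0)
  have hup : ∀ k < m, c k ≤ c (k + 1) := by
    intro k hk
    have h1 := Nat.choose_succ_right_eq (2 * m) k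
    have h2 : (2 * m).choose k * (k + 1) ≤ (2 * m).choose (k + 1) * (k + 1) := by
      rw [h1]
      exact Nat.mul_le_mul_left _ (by omega)
    have h3 := Nat.le_of_mul_le_mul_right h2 (by omega)
    simp only [hc]
    exact_mod_cast h3
  have hdown : ∀ k < m, c (m + k + 1) ≤ c (m + k) := by
    intro k hk
    have h1 := Nat.choose_succ_right_eq (2 * m) (m + k)
    have h2 : (2 * m).choose (m + k + 1) * (m + k + 1) ≤ (2 * m).choose (m + k) * (m + k + 1) := by
      rw [h1]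
      exact Nat.mul_le_mul_left _ (by omega)
    have h3 := Nat.le_of_mul_le_mul_right h2 (by omega)
    simp only [hc]
    exact_mod_cast h3
  have hA := abel_up e M he c (by simp [hc]) m hup
  have hB := abel_down e M he c m m hdown
  have e0 : 2 * m + 1 = (m + 1) + m := by omega
  rw [e0, Finset.sum_range_add]
  have e3 : m + m = 2 * m := by omega
  have hcm : c m = (Nat.centralBinom m : ℝ) := by
    simp only [hc, Nat.centralBinom]
  have hlast : 0 ≤ c (m + m) := by simp only [hc]; positivity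
  have key : (∑ x ∈ Finset.range (m + 1), c x • (e (x + 1) - e x)) +
      ∑ x ∈ Finset.range m, c (m + 1 + x) • (e (m + 1 + x + 1) - e (m + 1 + x)) =
      (∑ x ∈ Finset.range (m + 1), c x • (e (x + 1) - e x) - c m • e (m + 1)) +
      (c m • e (m + 1) + ∑ k ∈ Finset.range m,
        c (m + 1 + k) • (e (m + 1 + k + 1) - e (m + 1 + k)) - c (m + m) • e (m + m + 1)) +
      c (m + m) • e (m + m + 1) := by abel
  rw [key]
  calc _ ≤ _ := norm_add₃_le
    _ ≤ c m * M + (c m - c (m + m)) * M + c (m + m) * M := by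
        refine add_le_add (add_le_add hA hB) ?_
        rw [norm_smul, Real.norm_of_nonneg hlast]
        exact mul_le_mul_of_nonneg_left (he _) hlast
    _ = 2 * (Nat.centralBinom m : ℝ) * M := by rw [← hcm]; ring

end abel

theorem cb_sq_le (m : ℕ) : (Nat.centralBinom m : ℝ) ^ 2 * (2 * m + 1) ≤ (4 ^ m) ^ 2 := by
  induction m with
  | zero => simp
  | succ m ih =>
    have h1 : ((m : ℝ) + 1) * (Nat.centralBinom (m + 1) : ℝ) =
        2 * (2 * m + 1) * Nat.centralBinom m := by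
      have := Nat.succ_mul_centralBinom_succ m
      exact_mod_cast this
    set x : ℝ := (Nat.centralBinom m : ℝ)
    set y : ℝ := (Nat.centralBinom (m + 1) : ℝ)
    have hm : (0 : ℝ) ≤ m := Nat.cast_nonneg m
    have h2 : ((m : ℝ) + 1) ^ 2 * (y ^ 2 * (2 * (m + 1) + 1)) ≤
        ((m : ℝ) + 1) ^ 2 * (4 ^ (m + 1)) ^ 2 := by
      have e1 : ((m : ℝ) + 1) ^ 2 * (y ^ 2 * (2 * (m + 1) + 1)) =
          (((m : ℝ) + 1) * y) ^ 2 * (2 * m + 3) := by ring
      rw [e1, h1]
      have e2 : (2 * (2 * (m : ℝ) + 1) * x) ^ 2 * (2 * m + 3) =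
          (x ^ 2 * (2 * m + 1)) * (4 * ((2 * m + 1) * (2 * m + 3))) := by ring
      rw [e2]
      have e3 : ((m : ℝ) + 1) ^ 2 * (4 ^ (m + 1)) ^ 2 = (4 ^ m) ^ 2 * (4 * (2 * m + 2) ^ 2) := by
        ring
      rw [e3]
      apply mul_le_mul ih _ (by positivity) (by positivity)
      nlinarith
    have h3 : (0 : ℝ) < ((m : ℝ) + 1) ^ 2 := by positivity
    have := le_of_mul_le_mul_left h2 h3
    push_cast
    exact this

theorem cb_tendsto : Tendsto (fun m : ℕ => (Nat.centralBinom m : ℝ) / 4 ^ m) atTop (𝓝 0) := by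
  have h1 : Tendsto (fun m : ℕ => 1 / Real.sqrt ((m : ℝ) + 1)) atTop (𝓝 0) := by
    have : Tendsto (fun m : ℕ => Real.sqrt ((m : ℝ) + 1)) atTop atTop := by
      apply Real.tendsto_sqrt_atTop.comp
      exact tendsto_atTop_add_const_right _ _ tendsto_natCast_atTop_atTop
    simp only [one_div]
    exact this.inv_tendsto_atTop
  refine squeeze_zero (fun m => by positivity) (fun m => ?_) h1
  have h4 : (0 : ℝ) < 4 ^ m := by positivity
  have hs : 0 < Real.sqrt ((m : ℝ) + 1) := Real.sqrt_pos.2 (by positivity)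
  rw [div_le_div_iff₀ h4 hs, one_mul]
  apply le_of_sq_le_sq _ h4.le
  rw [mul_pow, Real.sq_sqrt (by positivity)]
  refine le_trans ?_ (cb_sq_le m)
  apply mul_le_mul_of_nonneg_left _ (by positivity)
  have : (0 : ℝ) ≤ m := Nat.cast_nonneg m
  linarith


section ops

variable {X : Type} [NormedAddCommGroup X] [NormedSpace ℝ X]

theorem pow_norm_le {a : X →L[ℝ] X} (ha : ‖a‖ ≤ 1) (n : ℕ) : ‖a ^ n‖ ≤ 1 := by
  induction n with
  | zero => rw [pow_zero]; exact ContinuousLinearMap.norm_id_le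
  | succ n ih =>
    rw [pow_succ]
    calc _ ≤ ‖a ^ n‖ * ‖a‖ := norm_mul_le _ _
      _ ≤ 1 * 1 := mul_le_mul ih ha (norm_nonneg _) zero_le_one
      _ = 1 := one_mul 1

theorem diff_bound {a b : X →L[ℝ] X} (hab : Commute a b) (ha : ‖a‖ ≤ 1) (hb : ‖b‖ ≤ 1) (m : ℕ)
    (w : X) : ‖((a - b) * (a + b) ^ (2 * m)) w‖ ≤ 2 * (Nat.centralBinom m : ℝ) * ‖w‖ := by
  set e : ℕ → X := fun k => (a ^ k * b ^ (2 * m + 1 - k)) w with he
  have hen : ∀ k, ‖e k‖ ≤ ‖w‖ := by
    intro k
    have h1 : ‖a ^ k * b ^ (2 * m + 1 - k)‖ ≤ 1 :=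
      calc _ ≤ ‖a ^ k‖ * ‖b ^ (2 * m + 1 - k)‖ := norm_mul_le _ _
        _ ≤ 1 * 1 := mul_le_mul (pow_norm_le ha _) (pow_norm_le hb _) (norm_nonneg _) zero_le_one
        _ = 1 := one_mul 1
    calc _ ≤ ‖a ^ k * b ^ (2 * m + 1 - k)‖ * ‖w‖ := ContinuousLinearMap.le_opNorm _ _
      _ ≤ 1 * ‖w‖ := mul_le_mul_of_nonneg_right h1 (norm_nonneg _)
      _ = _ := one_mul _
  have key : ((a - b) * (a + b) ^ (2 * m)) w =
      ∑ k ∈ Finset.range (2 * m + 1), ((2 * m).choose k : ℝ) • (e (k + 1) - e k) := by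
    rw [hab.add_pow, Finset.mul_sum, sum_apply]
    refine Finset.sum_congr rfl (fun k hk => ?_)
    have hk' : k ≤ 2 * m := by
      have := Finset.mem_range.1 hk
      omega
    have e1 : 2 * m + 1 - (k + 1) = 2 * m - k := by omega
    have e2 : 2 * m + 1 - k = (2 * m - k) + 1 := by omega
    have h1 : (a - b) * (a ^ k * b ^ (2 * m - k) * ((2 * m).choose k : X →L[ℝ] X)) =
        ((2 * m).choose k : ℝ) • (a ^ (k + 1) * b ^ (2 * m - k) - a ^ k * b ^ ((2 * m - k) + 1)) := by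
      have h2 : ((2 * m).choose k : X →L[ℝ] X) = ((2 * m).choose k : ℝ) • (1 : X →L[ℝ] X) := by
        rw [Nat.cast_smul_eq_nsmul, nsmul_one]
      have h3 : b * a ^ k = a ^ k * b := (hab.symm.pow_right k).eq
      rw [h2, mul_smul_comm, mul_one, mul_smul_comm, sub_mul, ← mul_assoc, ← mul_assoc,
        ← pow_succ', h3, mul_assoc (a ^ k) b, ← pow_succ']
    rw [h1]
    simp only [he, e1, e2, smul_apply, sub_apply]
  rw [key]
  exact abel_bound e ‖w‖ hen m

/-- commuting contractions: if `a w ≈ u`, `b w ≈ v` and `u + v = 2 w` then `u ≈ v` -/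
theorem close_of {a b : X →L[ℝ] X} (hab : Commute a b) (ha : ‖a‖ ≤ 1) (hb : ‖b‖ ≤ 1)
    {u v w : X} (huv : u + v = (2 : ℝ) • w) {ε : ℝ} (hu : ‖a w - u‖ ≤ ε) (hv : ‖b w - v‖ ≤ ε)
    (m : ℕ) : ‖u - v‖ ≤ (2 + 4 * m) * ε + 2 * ((Nat.centralBinom m : ℝ) / 4 ^ m) * ‖w‖ := by
  set s : X →L[ℝ] X := (1 / 2 : ℝ) • (a + b) with hs
  have hsn : ‖s‖ ≤ 1 := by
    rw [hs, norm_smul]
    have : ‖a + b‖ ≤ 1 + 1 := (norm_add_le _ _).trans (add_le_add ha hb)
    rw [Real.norm_of_nonneg (by norm_num)]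
    linarith
  have hsw : ‖s w - w‖ ≤ ε := by
    have h1 : s w - w = (1 / 2 : ℝ) • ((a w - u) + (b w - v)) := by
      have h2 : (a w - u) + (b w - v) = (a w + b w) - (2 : ℝ) • w := by rw [← huv]; abel
      have h3 : s w = (1 / 2 : ℝ) • (a w + b w) := rfl
      rw [h2, smul_sub, smul_smul, h3]
      norm_num
    rw [h1, norm_smul, Real.norm_of_nonneg (by norm_num)]
    have : ‖(a w - u) + (b w - v)‖ ≤ ε + ε := (norm_add_le _ _).trans (add_le_add hu hv)
    linarith
  have hpow : ∀ n : ℕ, ‖(s ^ n) w - w‖ ≤ n * ε := by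
    intro n
    induction n with
    | zero => simp
    | succ n ih =>
      have h1 : (s ^ (n + 1)) w - w = (s ^ n) (s w - w) + ((s ^ n) w - w) := by
        rw [map_sub, pow_succ, mul_apply_eq_comp]; abel
      rw [h1]
      calc _ ≤ _ := norm_add_le _ _
        _ ≤ 1 * ε + n * ε := by
            refine add_le_add ?_ ih
            calc _ ≤ ‖s ^ n‖ * ‖s w - w‖ := ContinuousLinearMap.le_opNorm _ _
              _ ≤ 1 * ε := mul_le_mul (pow_norm_le hsn n) hsw (norm_nonneg _) zero_le_one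
        _ = _ := by push_cast; ring
  have hab2 : ‖a - b‖ ≤ 2 := by
    have := norm_sub_le a b
    linarith
  have h4 : (0 : ℝ) < 4 ^ m := by positivity
  have hmain : ‖(a - b) ((s ^ (2 * m)) w)‖ ≤ 2 * ((Nat.centralBinom m : ℝ) / 4 ^ m) * ‖w‖ := by
    have h1 : (s ^ (2 * m)) w = (1 / 4 ^ m : ℝ) • ((a + b) ^ (2 * m)) w := by
      rw [hs, smul_pow, smul_apply]
      congr 1
      rw [pow_mul, show ((1 / 2 : ℝ)) ^ 2 = 1 / 4 by norm_num, one_div, one_div, inv_pow]
    rw [h1, map_smul, norm_smul, Real.norm_of_nonneg (by positivity)]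
    have h2 := diff_bound hab ha hb m w
    rw [mul_apply_eq_comp] at h2
    calc _ ≤ (1 / 4 ^ m : ℝ) * (2 * (Nat.centralBinom m : ℝ) * ‖w‖) :=
          mul_le_mul_of_nonneg_left h2 (by positivity)
      _ = _ := by ring
  have h5 : ‖(a - b) (w - (s ^ (2 * m)) w)‖ ≤ 2 * (2 * m * ε) := by
    have h6 := hpow (2 * m)
    rw [norm_sub_rev, Nat.cast_mul, Nat.cast_ofNat] at h6
    calc _ ≤ ‖a - b‖ * ‖w - (s ^ (2 * m)) w‖ := ContinuousLinearMap.le_opNorm _ _
      _ ≤ 2 * (2 * m * ε) := mul_le_mul hab2 h6 (norm_nonneg _) (by norm_num)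
  have h7 : u - v = -(a w - u) + (b w - v) + (a - b) (w - (s ^ (2 * m)) w) +
      (a - b) ((s ^ (2 * m)) w) := by
    rw [map_sub, sub_apply, sub_apply]
    abel
  rw [h7]
  calc _ ≤ ‖-(a w - u)‖ + ‖b w - v‖ + ‖(a - b) (w - (s ^ (2 * m)) w)‖ +
        ‖(a - b) ((s ^ (2 * m)) w)‖ := by
        refine (norm_add_le _ _).trans (add_le_add_left ?_ _)
        refine (norm_add_le _ _).trans (add_le_add_left ?_ _)
        exact norm_add_le _ _
    _ ≤ ε + ε + 2 * (2 * m * ε) + 2 * ((Nat.centralBinom m : ℝ) / 4 ^ m) * ‖w‖ := by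
        rw [norm_neg]
        linarith
    _ = _ := by ring

theorem eq_of_approx {u v w : X} (huv : u + v = (2 : ℝ) • w)
    (h : ∀ ε : ℝ, 0 < ε → ∃ a b : X →L[ℝ] X, Commute a b ∧ ‖a‖ ≤ 1 ∧ ‖b‖ ≤ 1 ∧
      ‖a w - u‖ ≤ ε ∧ ‖b w - v‖ ≤ ε) : u = v := by
  have h1 : ∀ m : ℕ, ‖u - v‖ ≤ 2 * ((Nat.centralBinom m : ℝ) / 4 ^ m) * ‖w‖ := by
    intro m
    apply le_of_forall_pos_le_add
    intro δ hδ
    have hpos : (0 : ℝ) < 2 + 4 * m := by positivity
    obtain ⟨a, b, hab, ha, hb, hu, hv⟩ := h (δ / (2 + 4 * m)) (by positivity)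
    have := close_of hab ha hb huv hu hv m
    rw [mul_div_cancel₀ _ hpos.ne'] at this
    linarith
  have h2 : Tendsto (fun m : ℕ => 2 * ((Nat.centralBinom m : ℝ) / 4 ^ m) * ‖w‖) atTop (𝓝 0) := by
    have := (cb_tendsto.const_mul 2).mul_const ‖w‖
    simpa using this
  have h3 : ‖u - v‖ ≤ 0 := ge_of_tendsto' h2 h1
  exact sub_eq_zero.1 (norm_le_zero_iff.1 h3)

end ops


section bic

variable {X : Type} [NormedAddCommGroup X] [NormedSpace ℝ X]

/-- contractions in the bicommutant of `t` -/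
def AA (t : X →L[ℝ] X) : Set (X →L[ℝ] X) :=
  {a | ‖a‖ ≤ 1 ∧ ∀ b : X →L[ℝ] X, b * t = t * b → b * a = a * b}

theorem AA_comm {t a b : X →L[ℝ] X} (ha : a ∈ AA t) (hb : b ∈ AA t) : Commute a b := by
  have h1 : t * a = a * t := ha.2 t rfl
  exact hb.2 a h1.symm

theorem AA_one (t : X →L[ℝ] X) : (1 : X →L[ℝ] X) ∈ AA t :=
  ⟨ContinuousLinearMap.norm_id_le, fun b _ => by rw [mul_one, one_mul]⟩

theorem AA_neg {t a : X →L[ℝ] X} (ha : a ∈ AA t) : -a ∈ AA t :=
  ⟨by rw [norm_neg]; exact ha.1, fun b hb => by rw [mul_neg, neg_mul, ha.2 b hb]⟩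

theorem AA_mul {t a c : X →L[ℝ] X} (ha : a ∈ AA t) (hc : c ∈ AA t) : a * c ∈ AA t := by
  refine ⟨?_, fun b hb => ?_⟩
  · calc _ ≤ ‖a‖ * ‖c‖ := norm_mul_le _ _
      _ ≤ 1 * 1 := mul_le_mul ha.1 hc.1 (norm_nonneg _) zero_le_one
      _ = 1 := one_mul 1
  · rw [← mul_assoc, ha.2 b hb, mul_assoc, hc.2 b hb, mul_assoc]

theorem AA_convex (t : X →L[ℝ] X) : Convex ℝ (AA t) := by
  intro a ha b hb r s hr hs hrs
  refine ⟨?_, fun c hc => ?_⟩
  · calc _ ≤ ‖r • a‖ + ‖s • b‖ := norm_add_le _ _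
      _ = r * ‖a‖ + s * ‖b‖ := by
          rw [norm_smul, norm_smul, Real.norm_of_nonneg hr, Real.norm_of_nonneg hs]
      _ ≤ r * 1 + s * 1 := add_le_add (mul_le_mul_of_nonneg_left ha.1 hr)
          (mul_le_mul_of_nonneg_left hb.1 hs)
      _ = 1 := by linarith
  · rw [mul_add, add_mul, mul_smul_comm, smul_mul_assoc, mul_smul_comm, smul_mul_assoc,
      ha.2 c hc, hb.2 c hc]

/-- the isometry as an operator -/
noncomputable def tt (T : X ≃ₗᵢ[ℝ] X) : X →L[ℝ] X := T.toLinearIsometry.toContinuousLinearMap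

@[simp] theorem tt_apply (T : X ≃ₗᵢ[ℝ] X) (x : X) : tt T x = T x := rfl

theorem AA_tt (T : X ≃ₗᵢ[ℝ] X) : tt T ∈ AA (tt T) :=
  ⟨LinearIsometry.norm_toContinuousLinearMap_le _, fun _ hb => hb⟩

theorem tt_mul_symm (T : X ≃ₗᵢ[ℝ] X) : tt T * tt T.symm = 1 := by
  ext x
  show T (T.symm x) = x
  simp

theorem symm_mul_tt (T : X ≃ₗᵢ[ℝ] X) : tt T.symm * tt T = 1 := by
  ext x
  show T.symm (T x) = x
  simp

theorem AA_symm (T : X ≃ₗᵢ[ℝ] X) : tt T.symm ∈ AA (tt T) := by
  refine ⟨LinearIsometry.norm_toContinuousLinearMap_le _, fun b hb => ?_⟩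
  calc b * tt T.symm = (tt T.symm * tt T) * (b * tt T.symm) := by rw [symm_mul_tt, one_mul]
    _ = tt T.symm * (tt T * b) * tt T.symm := by simp only [mul_assoc]
    _ = tt T.symm * (b * tt T) * tt T.symm := by rw [hb]
    _ = tt T.symm * b * (tt T * tt T.symm) := by simp only [mul_assoc]
    _ = tt T.symm * b := by rw [tt_mul_symm, mul_one]

/-- invariant seminorms bounded by the norm -/
structure IsInv (T : X ≃ₗᵢ[ℝ] X) (p : X → ℝ) : Prop where
  add : ∀ x y, p (x + y) ≤ p x + p y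
  smul : ∀ (r : ℝ) (x : X), p (r • x) = |r| * p x
  le : ∀ x, p x ≤ ‖x‖
  inv : ∀ x, p (T x) = p x

namespace IsInv

variable {T : X ≃ₗᵢ[ℝ] X} {p q : X → ℝ}

theorem zero (hp : IsInv T p) : p 0 = 0 := by
  have := hp.smul 0 0
  simpa using this

theorem neg (hp : IsInv T p) (x : X) : p (-x) = p x := by
  have := hp.smul (-1) x
  simpa using this

theorem nonneg (hp : IsInv T p) (x : X) : 0 ≤ p x := by
  have h1 := hp.add x (-x)
  rw [add_neg_cancel, hp.zero, hp.neg] at h1
  linarith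

theorem cont (hp : IsInv T p) : Continuous p := by
  have : LipschitzWith 1 p := by
    apply LipschitzWith.of_dist_le_mul
    intro x y
    rw [Real.dist_eq, dist_eq_norm, NNReal.coe_one, one_mul, abs_le]
    have h1 : p x ≤ p (x - y) + p y := by
      have := hp.add (x - y) y
      rwa [sub_add_cancel] at this
    have h2 : p y ≤ p (x - y) + p x := by
      have := hp.add (-(x - y)) x
      rw [hp.neg] at this
      have e : -(x - y) + x = y := by abel
      rwa [e] at this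
    have h3 := hp.le (x - y)
    constructor <;> linarith
  exact this.continuous

theorem norm (T : X ≃ₗᵢ[ℝ] X) : IsInv T (fun x => ‖x‖) :=
  ⟨fun x y => norm_add_le x y, fun r x => norm_smul r x, fun _ => le_rfl, fun x => T.norm_map x⟩

theorem max_inv (hp : IsInv T p) (hq : IsInv T q) {μ l : ℝ} (hμ : 0 ≤ μ) (hl : 0 ≤ l)
    (h1 : μ ≤ 1) (h2 : μ * l ≤ 1) : IsInv T (fun x => μ * max (p x) (l * q x)) := by
  refine ⟨fun x y => ?_, fun r x => ?_, fun x => ?_, fun x => ?_⟩
  · rw [← mul_add]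
    apply mul_le_mul_of_nonneg_left _ hμ
    apply max_le
    · exact (hp.add x y).trans (add_le_add (le_max_left _ _) (le_max_left _ _))
    · calc l * q (x + y) ≤ l * (q x + q y) := mul_le_mul_of_nonneg_left (hq.add x y) hl
        _ = l * q x + l * q y := by ring
        _ ≤ _ := add_le_add (le_max_right _ _) (le_max_right _ _)
  · simp only [hp.smul, hq.smul]
    have : l * (|r| * q x) = |r| * (l * q x) := by ring
    rw [this, ← mul_max_of_nonneg _ _ (abs_nonneg r)]
    ring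
  · rcases max_cases (p x) (l * q x) with ⟨h, _⟩ | ⟨h, _⟩
    · simp only [h]
      calc μ * p x ≤ 1 * ‖x‖ := mul_le_mul h1 (hp.le x) (hp.nonneg x) zero_le_one
        _ = _ := one_mul _
    · simp only [h]
      calc μ * (l * q x) = (μ * l) * q x := by ring
        _ ≤ 1 * ‖x‖ := mul_le_mul h2 (hq.le x) (hq.nonneg x) zero_le_one
        _ = _ := one_mul _
  · simp only [hp.inv, hq.inv]

/-- additivity on a pair passes to positive combinations -/
theorem add_comb (hp : IsInv T p) {u v : X} (h : p (u + v) = p u + p v) {s r : ℝ} (hs : 0 ≤ s)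
    (hr : 0 ≤ r) : p (s • u + r • v) = s * p u + r * p v := by
  apply le_antisymm
  · have := hp.add (s • u) (r • v)
    rwa [hp.smul, hp.smul, abs_of_nonneg hs, abs_of_nonneg hr] at this
  · rcases le_total r s with hrs | hrs
    · have e : s • (u + v) = (s • u + r • v) + (s - r) • v := by
        rw [smul_add, sub_smul]; abel
      have h1 := hp.add (s • u + r • v) ((s - r) • v)
      rw [← e, hp.smul, hp.smul, abs_of_nonneg hs, abs_of_nonneg (sub_nonneg.2 hrs), h] at h1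
      linarith
    · have e : r • (u + v) = (s • u + r • v) + (r - s) • u := by
        rw [smul_add, sub_smul]; abel
      have h1 := hp.add (s • u + r • v) ((r - s) • u)
      rw [← e, hp.smul, hp.smul, abs_of_nonneg hr, abs_of_nonneg (sub_nonneg.2 hrs), h] at h1
      linarith

end IsInv

/-- the invariant seminorm attached to a functional -/
noncomputable def qf (T : X ≃ₗᵢ[ℝ] X) (f : X →L[ℝ] ℝ) (x : X) : ℝ :=
  ⨆ a : AA (tt T), |f (a.1 x)|

theorem qf_bdd (T : X ≃ₗᵢ[ℝ] X) (f : X →L[ℝ] ℝ) (x : X) (a : AA (tt T)) :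
    |f (a.1 x)| ≤ ‖f‖ * ‖x‖ := by
  have h1 : ‖a.1 x‖ ≤ ‖x‖ := by
    calc _ ≤ ‖a.1‖ * ‖x‖ := ContinuousLinearMap.le_opNorm _ _
      _ ≤ 1 * ‖x‖ := mul_le_mul_of_nonneg_right a.2.1 (norm_nonneg _)
      _ = _ := one_mul _
  calc |f (a.1 x)| ≤ ‖f‖ * ‖a.1 x‖ := f.le_opNorm _
    _ ≤ _ := mul_le_mul_of_nonneg_left h1 (norm_nonneg _)

instance (T : X ≃ₗᵢ[ℝ] X) : Nonempty (AA (tt T)) := ⟨⟨1, AA_one _⟩⟩

theorem le_qf (T : X ≃ₗᵢ[ℝ] X) (f : X →L[ℝ] ℝ) (x : X) {a : X →L[ℝ] X} (ha : a ∈ AA (tt T)) :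
    |f (a x)| ≤ qf T f x :=
  le_ciSup (f := fun a : AA (tt T) => |f (a.1 x)|)
    ⟨‖f‖ * ‖x‖, by rintro _ ⟨b, rfl⟩; exact qf_bdd T f x b⟩ ⟨a, ha⟩

theorem qf_inv (T : X ≃ₗᵢ[ℝ] X) (f : X →L[ℝ] ℝ) :
    IsInv T (fun x => (‖f‖ + 1)⁻¹ * qf T f x) := by
  have hpos : 0 < ‖f‖ + 1 := by positivity
  refine ⟨fun x y => ?_, fun r x => ?_, fun x => ?_, fun x => ?_⟩
  · rw [← mul_add]
    apply mul_le_mul_of_nonneg_left _ (inv_nonneg.2 hpos.le)
    apply ciSup_le
    intro a
    rw [map_add, map_add]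
    exact (abs_add_le _ _).trans (add_le_add (le_qf T f x a.2) (le_qf T f y a.2))
  · have : qf T f (r • x) = |r| * qf T f x := by
      unfold qf
      rw [Real.mul_iSup_of_nonneg (abs_nonneg r)]
      congr 1
      ext a
      rw [map_smul, map_smul, smul_eq_mul, abs_mul]
    show (‖f‖ + 1)⁻¹ * qf T f (r • x) = |r| * ((‖f‖ + 1)⁻¹ * qf T f x)
    rw [this]; ring
  · have h1 : qf T f x ≤ ‖f‖ * ‖x‖ := ciSup_le (fun a => qf_bdd T f x a)
    rw [inv_mul_le_iff₀ hpos]
    nlinarith [norm_nonneg x, norm_nonneg f]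
  · have : qf T f (T x) = qf T f x := by
      apply le_antisymm
      · apply ciSup_le
        intro a
        exact le_qf T f x (AA_mul a.2 (AA_tt T))
      · apply ciSup_le
        intro a
        have h1 := le_qf T f (T x) (AA_mul a.2 (AA_symm T))
        have h2 : (a.1 * tt T.symm) (T x) = a.1 x := by
          show a.1 (T.symm (T x)) = a.1 x
          simp
        rwa [h2] at h1
    show (‖f‖ + 1)⁻¹ * qf T f (T x) = (‖f‖ + 1)⁻¹ * qf T f x
    rw [this]

/-- Hahn-Banach step -/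
theorem approx (T : X ≃ₗᵢ[ℝ] X) {x w : X} (h : ∀ p : X → ℝ, IsInv T p → p x ≤ p w) {ε : ℝ}
    (hε : 0 < ε) : ∃ a ∈ AA (tt T), ‖a w - x‖ ≤ ε := by
  set C : Set X := (fun a : X →L[ℝ] X => a w) '' AA (tt T) with hC
  have hCc : Convex ℝ C := by
    have : (fun a : X →L[ℝ] X => a w) = (ContinuousLinearMap.apply ℝ X w : (X →L[ℝ] X) → X) := rfl
    rw [hC, this]
    exact (AA_convex (tt T)).is_linear_image (ContinuousLinearMap.apply ℝ X w).isLinear
  by_cases hx : x ∈ closure C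
  · rw [Metric.mem_closure_iff] at hx
    obtain ⟨y, ⟨a, ha, rfl⟩, hy⟩ := hx ε hε
    refine ⟨a, ha, ?_⟩
    rw [dist_comm, dist_eq_norm] at hy
    exact hy.le
  · exfalso
    obtain ⟨f, s, hf1, hf2⟩ := geometric_hahn_banach_closed_point hCc.closure isClosed_closure hx
    have h1 : qf T f w ≤ s := by
      apply ciSup_le
      intro a
      rw [abs_le]
      have h2 := hf1 (a.1 w) (subset_closure ⟨a.1, a.2, rfl⟩)
      have h3 := hf1 ((-a.1) w) (subset_closure ⟨-a.1, AA_neg a.2, rfl⟩)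
      rw [neg_apply, map_neg] at h3
      constructor <;> linarith
    have h4 : f x ≤ qf T f x := by
      have := le_qf T f x (AA_one (tt T))
      exact (le_abs_self _).trans this
    have h5 := h _ (qf_inv T f)
    have hpos : 0 < (‖f‖ + 1)⁻¹ := by positivity
    have h6 : qf T f x ≤ qf T f w := le_of_mul_le_mul_left h5 hpos
    linarith

theorem key (T : X ≃ₗᵢ[ℝ] X) {u v : X} (hu : u ≠ 0) (hv : v ≠ 0)
    (h : ∀ p : X → ℝ, IsInv T p → p (u + v) = p u + p v) : ‖v‖ • u = ‖u‖ • v := by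
  have hun : 0 < ‖u‖ := norm_pos_iff.2 hu
  have hvn : 0 < ‖v‖ := norm_pos_iff.2 hv
  have hprop : ∀ p : X → ℝ, IsInv T p → p u * ‖v‖ = p v * ‖u‖ := by
    intro p hp
    set l : ℝ := (p u + p v) / (‖u‖ + ‖v‖) with hl
    have hl0 : 0 ≤ l := div_nonneg (add_nonneg (hp.nonneg u) (hp.nonneg v)) (by positivity)
    have hls : l * (‖u‖ + ‖v‖) = p u + p v := by
      rw [hl]; field_simp
    have hl1 : 0 < 1 + l := by linarith
    have hm := hp.max_inv (IsInv.norm T) (μ := (1 + l)⁻¹) (l := l) (by positivity) hl0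
      (inv_le_one_of_one_le₀ (by linarith)) (by
        rw [inv_mul_le_iff₀ hl1]; linarith)
    have h1 := h _ hm
    have h2 := h _ hp
    have h3 := h _ (IsInv.norm T)
    rw [← mul_add] at h1
    have h4 := mul_left_cancel₀ (inv_ne_zero hl1.ne') h1
    rw [h2, h3, hls, max_self] at h4
    have m1 := le_max_left (p u) (l * ‖u‖)
    have m2 := le_max_right (p u) (l * ‖u‖)
    have m3 := le_max_left (p v) (l * ‖v‖)
    have m4 := le_max_right (p v) (l * ‖v‖)
    have e1 : p u = l * ‖u‖ := by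
      apply le_antisymm
      · nlinarith
      · nlinarith
    have e2 : p v = l * ‖v‖ := by nlinarith
    rw [e1, e2]; ring
  set u' : X := ‖u‖⁻¹ • u with hu'
  set v' : X := ‖v‖⁻¹ • v with hv'
  have hpu : ∀ p : X → ℝ, IsInv T p → p u' = ‖u‖⁻¹ * p u := by
    intro p hp
    rw [hu', hp.smul, abs_of_pos (inv_pos.2 hun)]
  have hpv : ∀ p : X → ℝ, IsInv T p → p v' = ‖v‖⁻¹ * p v := by
    intro p hp
    rw [hv', hp.smul, abs_of_pos (inv_pos.2 hvn)]
  have heq : ∀ p : X → ℝ, IsInv T p → p u' = p v' := by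
    intro p hp
    rw [hpu p hp, hpv p hp]
    have := hprop p hp
    field_simp
    linarith
  set w : X := (1 / 2 : ℝ) • (u' + v') with hw
  have hpw : ∀ p : X → ℝ, IsInv T p → p w = p u' := by
    intro p hp
    have h1 : p (u' + v') = ‖u‖⁻¹ * p u + ‖v‖⁻¹ * p v :=
      hp.add_comb (h p hp) (inv_nonneg.2 hun.le) (inv_nonneg.2 hvn.le)
    rw [hw, hp.smul, h1, ← hpu p hp, ← hpv p hp, ← heq p hp, abs_of_pos (by norm_num)]
    ring
  have huv : u' + v' = (2 : ℝ) • w := by
    rw [hw, smul_smul]; norm_num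
  have hfin : u' = v' := by
    apply eq_of_approx huv
    intro ε hε
    obtain ⟨a, ha, ha2⟩ := approx T (x := u') (w := w) (fun p hp => (hpw p hp).ge) hε
    obtain ⟨b, hb, hb2⟩ := approx T (x := v') (w := w)
      (fun p hp => ((heq p hp).symm.trans (hpw p hp).symm).le) hε
    exact ⟨a, b, AA_comm ha hb, ha.1, hb.1, ha2, hb2⟩
  have h1 : ‖u‖ • ‖v‖ • u' = ‖u‖ • ‖v‖ • v' := by rw [hfin]
  rw [hu', hv', smul_comm ‖u‖ ‖v‖, smul_smul ‖u‖, mul_inv_cancel₀ hun.ne', one_smul,
    smul_smul ‖v‖ ‖v‖⁻¹, mul_inv_cancel₀ hvn.ne', one_smul] at h1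
  exact h1

end bic

section final

variable {X : Type} [NormedAddCommGroup X] [NormedSpace ℝ X]

theorem exists_norm [TopologicalSpace.SeparableSpace X] (T : X ≃ₗᵢ[ℝ] X) :
    ∃ N : X → ℝ,
      (∀ x y : X, N (x + y) ≤ N x + N y) ∧
      (∀ (r : ℝ) (x : X), N (r • x) = |r| * N x) ∧
      (∃ c C : ℝ, 0 < c ∧ 0 < C ∧ ∀ x : X, c * ‖x‖ ≤ N x ∧ N x ≤ C * ‖x‖) ∧
      (∀ x : X, N (T x) = N x) ∧
      (∀ x y : X, N x = 1 → N y = 1 → x ≠ y → N (x + y) < 2) := by
  have : SecondCountableTopology X := UniformSpace.secondCountable_of_separable X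
  set S : {p : X → ℝ // IsInv T p} → Set (X × X) :=
    fun p => {z | p.1 (z.1 + z.2) < p.1 z.1 + p.1 z.2} with hS
  have hSo : ∀ p, IsOpen (S p) := by
    intro p
    have hc := p.2.cont
    exact isOpen_lt (hc.comp (continuous_fst.add continuous_snd))
      ((hc.comp continuous_fst).add (hc.comp continuous_snd))
  obtain ⟨I, hIc, hI⟩ := TopologicalSpace.isOpen_iUnion_countable S hSo
  set p0 : {p : X → ℝ // IsInv T p} := ⟨_, IsInv.norm T⟩ with hp0
  obtain ⟨g, hg⟩ := (hIc.insert p0).exists_eq_range (Set.insert_nonempty _ _)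
  have hsum : ∀ x : X, Summable (fun i => (1 / 2 : ℝ) ^ i * (g i).1 x) := by
    intro x
    refine Summable.of_nonneg_of_le (fun i => mul_nonneg (by positivity) ((g i).2.nonneg x))
      (fun i => mul_le_mul_of_nonneg_left ((g i).2.le x) (by positivity))
      (summable_geometric_two.mul_right ‖x‖)
  refine ⟨fun x => ‖x‖ + ∑' i, (1 / 2 : ℝ) ^ i * (g i).1 x, ?_, ?_, ?_, ?_, ?_⟩
  · intro x y
    have h1 : ∑' i, (1 / 2 : ℝ) ^ i * (g i).1 (x + y) ≤
        ∑' i, ((1 / 2 : ℝ) ^ i * (g i).1 x + (1 / 2 : ℝ) ^ i * (g i).1 y) := by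
      refine (hsum _).tsum_le_tsum (fun i => ?_) ((hsum x).add (hsum y))
      rw [← mul_add]
      exact mul_le_mul_of_nonneg_left ((g i).2.add x y) (by positivity)
    rw [(hsum x).tsum_add (hsum y)] at h1
    have h2 := norm_add_le x y
    simp only
    linarith
  · intro r x
    simp only [(g _).2.smul, norm_smul, Real.norm_eq_abs]
    have : ∀ i, (1 / 2 : ℝ) ^ i * (|r| * (g i).1 x) = |r| * ((1 / 2 : ℝ) ^ i * (g i).1 x) := by
      intro i; ring
    simp only [this, tsum_mul_left]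
    ring
  · refine ⟨1, 3, one_pos, by norm_num, fun x => ⟨?_, ?_⟩⟩
    · have : 0 ≤ ∑' i, (1 / 2 : ℝ) ^ i * (g i).1 x :=
        tsum_nonneg (fun i => mul_nonneg (by positivity) ((g i).2.nonneg x))
      simp only
      linarith
    · have h1 : ∑' i, (1 / 2 : ℝ) ^ i * (g i).1 x ≤ ∑' i, (1 / 2 : ℝ) ^ i * ‖x‖ := by
        refine (hsum x).tsum_le_tsum (fun i => ?_) (summable_geometric_two.mul_right ‖x‖)
        exact mul_le_mul_of_nonneg_left ((g i).2.le x) (by positivity)
      rw [tsum_mul_right, tsum_geometric_two] at h1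
      simp only
      linarith
  · intro x
    simp only [(g _).2.inv, T.norm_map]
  · intro u v hu hv huv
    simp only at hu hv ⊢
    by_contra hcon
    push Not at hcon
    -- all the seminorms of the countable family are additive on (u, v)
    have hall : ∀ i, (g i).1 (u + v) = (g i).1 u + (g i).1 v := by
      intro i
      by_contra hne
      have hlt : (g i).1 (u + v) < (g i).1 u + (g i).1 v :=
        lt_of_le_of_ne ((g i).2.add u v) hne
      have h1 : ∑' i, (1 / 2 : ℝ) ^ i * (g i).1 (u + v) <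
          ∑' i, ((1 / 2 : ℝ) ^ i * (g i).1 u + (1 / 2 : ℝ) ^ i * (g i).1 v) := by
        refine Summable.tsum_lt_tsum (i := i) (fun j => ?_) ?_ (hsum _) ((hsum u).add (hsum v))
        · rw [← mul_add]
          exact mul_le_mul_of_nonneg_left ((g j).2.add u v) (by positivity)
        · rw [← mul_add]
          exact mul_lt_mul_of_pos_left hlt (by positivity)
      rw [(hsum u).tsum_add (hsum v)] at h1
      have h2 := norm_add_le u v
      linarith
    have hadd : ∀ p : X → ℝ, IsInv T p → p (u + v) = p u + p v := by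
      intro p hp
      by_contra hne
      have hlt : p (u + v) < p u + p v := lt_of_le_of_ne (hp.add u v) hne
      have hmem : (u, v) ∈ ⋃ p, S p := mem_iUnion.2 ⟨⟨p, hp⟩, hlt⟩
      rw [← hI, mem_iUnion₂] at hmem
      obtain ⟨q, hq, hq2⟩ := hmem
      have hqr : q ∈ range g := by
        rw [← hg]; exact Set.mem_insert_of_mem _ hq
      obtain ⟨i, rfl⟩ := hqr
      exact absurd (hall i) (ne_of_lt hq2)
    have hu0 : u ≠ 0 := by
      rintro rfl
      simp only [norm_zero, (g _).2.zero, mul_zero, tsum_zero, add_zero] at hu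
      exact zero_ne_one hu
    have hv0 : v ≠ 0 := by
      rintro rfl
      simp only [norm_zero, (g _).2.zero, mul_zero, tsum_zero, add_zero] at hv
      exact zero_ne_one hv
    have hk := key T hu0 hv0 hadd
    have hN : ∀ (r : ℝ) (x : X), ‖r • x‖ + ∑' i, (1 / 2 : ℝ) ^ i * (g i).1 (r • x) =
        |r| * (‖x‖ + ∑' i, (1 / 2 : ℝ) ^ i * (g i).1 x) := by
      intro r x
      simp only [(g _).2.smul, norm_smul, Real.norm_eq_abs]
      have : ∀ i, (1 / 2 : ℝ) ^ i * (|r| * (g i).1 x) = |r| * ((1 / 2 : ℝ) ^ i * (g i).1 x) := by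
        intro i; ring
      simp only [this, tsum_mul_left]
      ring
    have h1 := hN ‖v‖ u
    have h2 := hN ‖u‖ v
    rw [hk, h2, hu, hv, mul_one, mul_one, abs_norm, abs_norm] at h1
    apply huv
    rw [h1] at hk
    exact smul_right_injective X (norm_ne_zero_iff.2 hv0) hk

end final

end Pool.Agent.H376R3.InvSC
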