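import Mathlib

set_option autoImplicit false

namespace Pool.Agent.H376R3.LProj

open Filter Topology

variable {𝕜 : Type*} [RCLike 𝕜]

/-- If `T` satisfies `‖T v‖ + ‖v - T v‖ ≤ ‖v‖`, its iterates converge to an L-projection onto the
fixed space of `T`. -/
theorem exists_Lproj {V : Type*} [NormedAddCommGroup V] [NormedSpace 𝕜 V] [CompleteSpace V]
    (T : V →L[𝕜] V) (hT : ∀ v : V, ‖T v‖ + ‖v - T v‖ ≤ ‖v‖) :
    ∃ S : V →L[𝕜] V, S.comp S = S ∧ (∀ v : V, T v = v ↔ S v = v) ∧
      (∀ v : V, ‖v‖ = ‖S v‖ + ‖v - S v‖) := by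
  classical
  -- telescoping
  have key : ∀ (v : V) (m k : ℕ),
      ‖(T ^ (m + k)) v‖ + ‖(T ^ m) v - (T ^ (m + k)) v‖ ≤ ‖(T ^ m) v‖ := by
    intro v m k
    induction k with
    | zero => simp
    | succ k ih =>
      have h1 : (T ^ (m + (k + 1))) v = T ((T ^ (m + k)) v) := by
        rw [← add_assoc, pow_succ']
        rfl
      have h2 := hT ((T ^ (m + k)) v)
      rw [h1]
      have h3 : ‖(T ^ m) v - T ((T ^ (m + k)) v)‖ ≤
          ‖(T ^ m) v - (T ^ (m + k)) v‖ + ‖(T ^ (m + k)) v - T ((T ^ (m + k)) v)‖ := by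
        have := norm_add_le ((T ^ m) v - (T ^ (m + k)) v)
          ((T ^ (m + k)) v - T ((T ^ (m + k)) v))
        simpa using this
      linarith
  have anti : ∀ v : V, Antitone (fun n : ℕ => ‖(T ^ n) v‖) := by
    intro v
    apply antitone_nat_of_succ_le
    intro n
    have := key v n 1
    have h := norm_nonneg ((T ^ n) v - (T ^ (n + 1)) v)
    linarith
  have bdd : ∀ v : V, BddBelow (Set.range (fun n : ℕ => ‖(T ^ n) v‖)) := by
    intro v
    exact ⟨0, by rintro _ ⟨n, rfl⟩; exact norm_nonneg _⟩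
  have cau : ∀ v : V, CauchySeq (fun n : ℕ => (T ^ n) v) := by
    intro v
    have hlim := tendsto_atTop_ciInf (anti v) (bdd v)
    have hc : CauchySeq (fun n : ℕ => ‖(T ^ n) v‖) := hlim.cauchySeq
    rw [Metric.cauchySeq_iff'] at hc ⊢
    intro ε hε
    obtain ⟨N, hN⟩ := hc ε hε
    refine ⟨N, fun n hn => ?_⟩
    obtain ⟨k, rfl⟩ := Nat.exists_eq_add_of_le hn
    have h1 := key v N k
    have h2 := hN (N + k) hn
    rw [Real.dist_eq] at h2
    rw [dist_eq_norm, norm_sub_rev]
    have h3 := neg_le_abs (‖(T ^ (N + k)) v‖ - ‖(T ^ N) v‖)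
    linarith
  choose f hf using fun v => cauchySeq_tendsto_of_complete (cau v)
  let S₀ : V →ₗ[𝕜] V := linearMapOfTendsto (l := atTop) f (fun n : ℕ => ((T ^ n : V →L[𝕜] V) : V →ₗ[𝕜] V))
    (by
      rw [tendsto_pi_nhds]
      intro v
      exact hf v)
  have hS₀ : ∀ v, S₀ v = f v := fun v => rfl
  have hnorm : ∀ v : V, ‖f v‖ + ‖v - f v‖ ≤ ‖v‖ := by
    intro v
    have h1 : Tendsto (fun k : ℕ => ‖(T ^ k) v‖ + ‖v - (T ^ k) v‖) atTop
        (𝓝 (‖f v‖ + ‖v - f v‖)) :=
      (hf v).norm.add ((tendsto_const_nhds.sub (hf v)).norm)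
    refine le_of_tendsto h1 (Eventually.of_forall fun k => ?_)
    have := key v 0 k
    simpa using this
  let S : V →L[𝕜] V := S₀.mkContinuous 1 (by
    intro v
    rw [hS₀, one_mul]
    have := hnorm v
    have h := norm_nonneg (v - f v)
    linarith)
  have hS : ∀ v, S v = f v := fun v => rfl
  have hTf : ∀ v, T (f v) = f v := by
    intro v
    have h1 : Tendsto (fun n : ℕ => T ((T ^ n) v)) atTop (𝓝 (T (f v))) :=
      (T.continuous.tendsto _).comp (hf v)
    have h2 : Tendsto (fun n : ℕ => (T ^ (n + 1)) v) atTop (𝓝 (f v)) :=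
      (tendsto_add_atTop_iff_nat 1).2 (hf v)
    have h3 : (fun n : ℕ => T ((T ^ n) v)) = fun n : ℕ => (T ^ (n + 1)) v := by
      funext n
      rw [pow_succ']
      rfl
    rw [h3] at h1
    exact tendsto_nhds_unique h1 h2
  have hfix : ∀ v, T v = v → f v = v := by
    intro v hv
    have h1 : ∀ n : ℕ, (T ^ n) v = v := by
      intro n
      induction n with
      | zero => simp
      | succ n ih =>
        rw [pow_succ']
        change T ((T ^ n) v) = v
        rw [ih, hv]
    have h2 := hf v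
    simp only [h1] at h2
    exact tendsto_nhds_unique h2 tendsto_const_nhds
  refine ⟨S, ?_, ?_, ?_⟩
  · ext v
    change S (S v) = S v
    rw [hS v, hS (f v)]
    exact hfix _ (hTf v)
  · intro v
    constructor
    · intro h
      rw [hS]
      exact hfix v h
    · intro h
      rw [hS] at h
      rw [← h]
      exact hTf v
  · intro v
    rw [hS]
    refine le_antisymm ?_ (hnorm v)
    have := norm_add_le (f v) (v - f v)
    simpa using this

end Pool.Agent.H376R3.LProj
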