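import Mathlib

set_option autoImplicit false
set_option linter.unusedSectionVars false

namespace Pool.Agent.H376R3.StarFin

open Metric Set

variable {X : Type*} [NormedAddCommGroup X] [NormedSpace ℝ X]

/-- local uniqueness (up to distance one) of almost norming functionals at `e` -/
def Sm (e : X) : Prop :=
  ∃ σ : ℝ, 0 < σ ∧ ∀ h g : X →L[ℝ] ℝ, ‖h‖ ≤ 1 → ‖g‖ ≤ 1 → ‖e‖ - σ ≤ h e → ‖e‖ - σ ≤ g e →
    ∀ u : X, h u - g u ≤ ‖u‖

lemma sm_of_differentiableAt {e : X} (hd : DifferentiableAt ℝ (fun y : X => ‖y‖) e) : Sm e := by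
  obtain ⟨f, hf⟩ := hd
  rw [hasFDerivAt_iff_isLittleO_nhds_zero] at hf
  have h1 := hf.def (show (0 : ℝ) < 1 / 4 by norm_num)
  rw [Metric.eventually_nhds_iff] at h1
  obtain ⟨δ, hδ, h2⟩ := h1
  refine ⟨δ / 8, by positivity, fun h g hh hg he ge u => ?_⟩
  by_cases hu : u = 0
  · simp [hu]
  have hun : 0 < ‖u‖ := norm_pos_iff.2 hu
  set t : ℝ := (δ / 2) / ‖u‖ with ht
  have htp : 0 < t := by positivity
  have htn : ‖t • u‖ = δ / 2 := by
    rw [norm_smul, Real.norm_of_nonneg htp.le, ht]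
    field_simp
  have a1 := h2 (y := t • u) (by rw [dist_zero_right, htn]; linarith)
  have a2 := h2 (y := -(t • u)) (by rw [dist_zero_right, norm_neg, htn]; linarith)
  rw [htn] at a1
  rw [norm_neg, htn] at a2
  have b1 := (abs_le.1 ((Real.norm_eq_abs _).symm.le.trans a1)).2
  have b2 := (abs_le.1 ((Real.norm_eq_abs _).symm.le.trans a2)).2
  have c1 : h (e + t • u) ≤ ‖e + t • u‖ :=
    (le_abs_self _).trans ((h.le_opNorm _).trans (by nlinarith [norm_nonneg (e + t • u)]))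
  have c2 : g (e + -(t • u)) ≤ ‖e + -(t • u)‖ :=
    (le_abs_self _).trans ((g.le_opNorm _).trans (by nlinarith [norm_nonneg (e + -(t • u))]))
  rw [map_add, map_smul, smul_eq_mul] at c1
  rw [map_add, map_neg, map_smul, smul_eq_mul] at c2
  rw [map_neg] at b2
  have d1 : t * (h u - g u) ≤ δ / 2 := by nlinarith
  have d2 : t * ‖u‖ = δ / 2 := by
    rw [← htn, norm_smul, Real.norm_of_nonneg htp.le]
  rw [← d2] at d1
  exact le_of_mul_le_mul_left d1 htp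

lemma sm_smul {e : X} (he : Sm e) {t : ℝ} (ht : 0 < t) : Sm (t • e) := by
  obtain ⟨σ, hσ, h1⟩ := he
  refine ⟨t * σ, by positivity, fun h g hh hg he ge u => ?_⟩
  rw [norm_smul, Real.norm_of_nonneg ht.le, map_smul, smul_eq_mul, ← mul_sub] at he ge
  exact h1 h g hh hg (le_of_mul_le_mul_left he ht) (le_of_mul_le_mul_left ge ht) u

/-- a norming functional -/
lemma exists_norming (x : X) (hx : x ≠ 0) : ∃ g : X →L[ℝ] ℝ, ‖g‖ ≤ 1 ∧ g x = ‖x‖ := by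
  obtain ⟨g, hg, hgx⟩ := exists_dual_vector ℝ x (norm_ne_zero_iff.2 hx)
  exact ⟨g, hg.le, hgx⟩

lemma apply_le_norm {g : X →L[ℝ] ℝ} (hg : ‖g‖ ≤ 1) (x : X) : g x ≤ ‖x‖ :=
  (le_abs_self _).trans ((g.le_opNorm _).trans (by nlinarith [norm_nonneg x]))

/-- disjoint closed balls have distant centres -/
lemma dist_centers {a b : X} {r s : ℝ} (hr : 0 < r) (hs : 0 < s)
    (h : ¬ (closedBall a r ∩ closedBall b s).Nonempty) : r + s < ‖a - b‖ := by
  by_contra hcon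
  push Not at hcon
  apply h
  have hrs : 0 < r + s := by linarith
  refine ⟨a + (r / (r + s)) • (b - a), ?_, ?_⟩
  · rw [mem_closedBall, dist_eq_norm]
    have : a + (r / (r + s)) • (b - a) - a = (r / (r + s)) • (b - a) := by abel
    rw [this, norm_smul, Real.norm_of_nonneg (by positivity), norm_sub_rev]
    calc r / (r + s) * ‖a - b‖ ≤ r / (r + s) * (r + s) := by gcongr
      _ = r := by field_simp
  · rw [mem_closedBall, dist_eq_norm]
    have : a + (r / (r + s)) • (b - a) - b = (s / (r + s)) • (a - b) := by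
      have h1 : s / (r + s) = 1 - r / (r + s) := by field_simp; ring
      rw [h1, sub_smul, one_smul, smul_sub, smul_sub]
      abel
    rw [this, norm_smul, Real.norm_of_nonneg (by positivity)]
    calc s / (r + s) * ‖a - b‖ ≤ s / (r + s) * (r + s) := by gcongr
      _ = s := by field_simp

/-- common kernel of finitely many functionals on an infinite-dimensional space -/
lemma exists_common_ker (hinf : ¬ FiniteDimensional ℝ X) {ι : Type*} [Finite ι]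
    (g : ι → (X →L[ℝ] ℝ)) : ∃ v : X, v ≠ 0 ∧ ∀ i, g i v = 0 := by
  by_contra hcon
  push Not at hcon
  apply hinf
  let L : X →ₗ[ℝ] (ι → ℝ) := LinearMap.pi (fun i => (g i : X →ₗ[ℝ] ℝ))
  have hL : Function.Injective L := by
    rw [← LinearMap.ker_eq_bot, LinearMap.ker_eq_bot']
    intro v hv
    by_contra hne
    obtain ⟨i, hi⟩ := hcon v hne
    exact hi (congrFun hv i)
  exact FiniteDimensional.of_injective L hL

/-- a line through a point of a ball meets the sphere -/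
lemma exists_sphere {s x v : X} {r : ℝ} (hx : ‖x - s‖ ≤ r) (hv : v ≠ 0) :
    ∃ t : ℝ, ‖x + t • v - s‖ = r := by
  have hcont : Continuous (fun t : ℝ => ‖x + t • v - s‖) := by fun_prop
  have h0 : ‖x + (0 : ℝ) • v - s‖ ≤ r := by simpa using hx
  have hvn : 0 < ‖v‖ := norm_pos_iff.2 hv
  have hT : r ≤ ‖x + ((r + ‖x - s‖) / ‖v‖) • v - s‖ := by
    have h1 : x + ((r + ‖x - s‖) / ‖v‖) • v - s = ((r + ‖x - s‖) / ‖v‖) • v - (s - x) := by abel
    rw [h1]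
    have h2 := norm_sub_norm_le (((r + ‖x - s‖) / ‖v‖) • v) (s - x)
    have h3 : ‖((r + ‖x - s‖) / ‖v‖) • v‖ = r + ‖x - s‖ := by
      rw [norm_smul, Real.norm_of_nonneg]
      · field_simp
      · have := norm_nonneg (x - s)
        have hr : 0 ≤ r := this.trans hx
        positivity
    rw [h3, norm_sub_rev s x] at h2
    linarith
  have hmem : r ∈ Icc ((fun t : ℝ => ‖x + t • v - s‖) 0)
      ((fun t : ℝ => ‖x + t • v - s‖) ((r + ‖x - s‖) / ‖v‖)) := ⟨h0, hT⟩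
  have hpc : IsPreconnected (univ : Set ℝ) := isPreconnected_univ
  obtain ⟨t, -, ht⟩ := hpc.intermediate_value (mem_univ (0 : ℝ))
    (mem_univ ((r + ‖x - s‖) / ‖v‖)) hcont.continuousOn hmem
  exact ⟨t, ht⟩

/-- star-finite covers by closed balls, irredundant -/
structure Cov (𝓑 : Set (Set X)) (c : Set X → X) (ρ : Set X → ℝ) : Prop where
  pos : ∀ B ∈ 𝓑, 0 < ρ B
  eqb : ∀ B ∈ 𝓑, B = closedBall (c B) (ρ B)
  covers : ∀ x : X, ∃ B ∈ 𝓑, x ∈ B
  starfin : ∀ B ∈ 𝓑, {B' ∈ 𝓑 | (B ∩ B').Nonempty}.Finite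
  minl : ∀ B ∈ 𝓑, ∃ x ∈ B, ∀ B' ∈ 𝓑, B' ≠ B → x ∉ B'

/-- the private boundary points of a member -/
def Pr (𝓑 : Set (Set X)) (c : Set X → X) (ρ : Set X → ℝ) (B : Set X) (z : X) : Prop :=
  ‖z - c B‖ = ρ B ∧ ∀ B' ∈ 𝓑, B' ≠ B → z ∉ B'

variable {𝓑 : Set (Set X)} {c : Set X → X} {ρ : Set X → ℝ}

lemma Cov.mem_iff (H : Cov 𝓑 c ρ) {B : Set X} (hB : B ∈ 𝓑) {x : X} : x ∈ B ↔ ‖x - c B‖ ≤ ρ B := by
  have h1 : x ∈ B ↔ x ∈ closedBall (c B) (ρ B) := by rw [← H.eqb B hB]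
  rw [h1, mem_closedBall, dist_eq_norm]

lemma Cov.isClosed (H : Cov 𝓑 c ρ) {B : Set X} (hB : B ∈ 𝓑) : IsClosed B := by
  rw [H.eqb B hB]; exact isClosed_closedBall

lemma Cov.exists_pr (H : Cov 𝓑 c ρ) (hinf : ¬ FiniteDimensional ℝ X) {B : Set X} (hB : B ∈ 𝓑) :
    ∃ z, Pr 𝓑 c ρ B z := by
  classical
  obtain ⟨x, hxB, hx⟩ := H.minl B hB
  have hfin : {B' ∈ 𝓑 | (B ∩ B').Nonempty}.Finite := H.starfin B hB
  have := hfin.to_subtype
  have hg : ∀ B' : {B' ∈ 𝓑 | (B ∩ B').Nonempty}, ∃ g : X →L[ℝ] ℝ,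
      B'.1 ≠ B → ∀ y ∈ B'.1, g y < g x := by
    rintro ⟨B', hB', -⟩
    by_cases hne : B' = B
    · exact ⟨0, fun h => absurd hne h⟩
    have h1 : ρ B' < ‖x - c B'‖ := by
      have := hx B' hB' hne
      rw [H.mem_iff hB', not_le] at this
      exact this
    have h2 : x - c B' ≠ 0 := by
      intro h0
      rw [h0, norm_zero] at h1
      linarith [H.pos B' hB']
    obtain ⟨g, hg, hgx⟩ := exists_norming _ h2
    refine ⟨g, fun _ y hy => ?_⟩
    rw [H.mem_iff hB'] at hy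
    have h3 := apply_le_norm hg (y - c B')
    rw [map_sub] at h3 hgx
    linarith
  choose g hg using hg
  obtain ⟨v, hv, hv0⟩ := exists_common_ker hinf g
  obtain ⟨t, ht⟩ := exists_sphere ((H.mem_iff hB).1 hxB) hv
  refine ⟨x + t • v, ht, fun B' hB' hne hmem => ?_⟩
  have hmemB : x + t • v ∈ B := (H.mem_iff hB).2 ht.le
  have h1 := hg ⟨B', hB', ⟨x + t • v, hmemB, hmem⟩⟩ hne _ hmem
  rw [map_add, map_smul, hv0] at h1
  simp at h1

/-- a neighbourhood of a private point -/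
lemma Cov.exists_nhd (H : Cov 𝓑 c ρ) {B : Set X} (hB : B ∈ 𝓑) {z : X} (hz : Pr 𝓑 c ρ B z) :
    ∃ δ > 0, ∀ C ∈ 𝓑, C ≠ B → (C ∩ ball z δ).Nonempty → ¬ (B ∩ C).Nonempty := by
  classical
  have hfin : {B' ∈ 𝓑 | (B ∩ B').Nonempty}.Finite := H.starfin B hB
  have hcl : IsClosed (⋃ C ∈ {B' ∈ 𝓑 | (B ∩ B').Nonempty} \ {B}, C) :=
    (hfin.subset sdiff_subset).isClosed_biUnion (fun C hC => H.isClosed hC.1.1)
  have hnot : z ∉ ⋃ C ∈ {B' ∈ 𝓑 | (B ∩ B').Nonempty} \ {B}, C := by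
    intro h
    simp only [mem_iUnion] at h
    obtain ⟨C, ⟨⟨hC, -⟩, hne⟩, hzC⟩ := h
    exact hz.2 C hC hne hzC
  obtain ⟨δ, hδ, hsub⟩ := Metric.isOpen_iff.1 hcl.isOpen_compl z hnot
  refine ⟨δ, hδ, fun C hC hne ⟨y, hyC, hy⟩ hBC => ?_⟩
  apply hsub hy
  simp only [mem_iUnion]
  exact ⟨C, ⟨⟨hC, hBC⟩, hne⟩, hyC⟩

/-- points outside all but `B`, away from the neighbours of `C₂` -/
lemma Cov.exists_nhd' (H : Cov 𝓑 c ρ) {B : Set X} {z : X} (hz : Pr 𝓑 c ρ B z)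
    {C₂ : Set X} (hC₂ : C₂ ∈ 𝓑) :
    ∃ δ > 0, ∀ C ∈ 𝓑, C ≠ B → (C ∩ ball z δ).Nonempty → ¬ (C₂ ∩ C).Nonempty := by
  classical
  have hfin : {B' ∈ 𝓑 | (C₂ ∩ B').Nonempty}.Finite := H.starfin C₂ hC₂
  have hcl : IsClosed (⋃ C ∈ {B' ∈ 𝓑 | (C₂ ∩ B').Nonempty} \ {B}, C) :=
    (hfin.subset sdiff_subset).isClosed_biUnion (fun C hC => H.isClosed hC.1.1)
  have hnot : z ∉ ⋃ C ∈ {B' ∈ 𝓑 | (C₂ ∩ B').Nonempty} \ {B}, C := by
    intro h
    simp only [mem_iUnion] at h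
    obtain ⟨C, ⟨⟨hC, -⟩, hne⟩, hzC⟩ := h
    exact hz.2 C hC hne hzC
  obtain ⟨δ, hδ, hsub⟩ := Metric.isOpen_iff.1 hcl.isOpen_compl z hnot
  refine ⟨δ, hδ, fun C hC hne ⟨y, hyC, hy⟩ hBC => ?_⟩
  apply hsub hy
  simp only [mem_iUnion]
  exact ⟨C, ⟨⟨hC, hBC⟩, hne⟩, hyC⟩

end Pool.Agent.H376R3.StarFin
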