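import Pool.Agent.H376R3.StarFin1

set_option autoImplicit false
set_option linter.unusedSectionVars false

namespace Pool.Agent.H376R3.StarFin

open Metric Set

variable {X : Type*} [NormedAddCommGroup X] [NormedSpace ℝ X]
variable {𝓑 : Set (Set X)} {c : Set X → X} {ρ : Set X → ℝ}

/-- sphere points near a private point are private -/
lemma Cov.pr_near (H : Cov 𝓑 c ρ) {B : Set X} (hB : B ∈ 𝓑) {z z' : X} {δ : ℝ}
    (hδ : ∀ C ∈ 𝓑, C ≠ B → (C ∩ ball z δ).Nonempty → ¬ (B ∩ C).Nonempty)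
    (hz' : ‖z' - c B‖ = ρ B) (hd : ‖z' - z‖ < δ) : Pr 𝓑 c ρ B z' := by
  refine ⟨hz', fun C hC hne hmem => ?_⟩
  have h1 : z' ∈ ball z δ := by rw [mem_ball, dist_eq_norm]; exact hd
  exact hδ C hC hne ⟨z', hmem, h1⟩ ⟨z', (H.mem_iff hB).2 hz'.le, hmem⟩

/-- the key local lemma: near a private boundary point at which almost norming functionals are
locally unique, there are private boundary points near which all other members are small -/
lemma Cov.key (H : Cov 𝓑 c ρ) {B : Set X} (hB : B ∈ 𝓑) {z : X} (hz : Pr 𝓑 c ρ B z)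
    (hd : Sm (z - c B)) {δ₀ : ℝ} (hδ₀ : 0 < δ₀) {η : ℝ} (hη : 0 < η) :
    ∃ z', ‖z' - z‖ < δ₀ ∧ Pr 𝓑 c ρ B z' ∧
      ∃ δ > 0, ∀ C ∈ 𝓑, C ≠ B → (C ∩ ball z' δ).Nonempty → ρ C < η := by
  by_contra hcon
  push Not at hcon
  obtain ⟨δ₁, hδ₁, hN⟩ := H.exists_nhd hB hz
  obtain ⟨σ, hσ, hS⟩ := hd
  set s := c B with hs
  set r := ρ B with hr
  have hrp : 0 < r := H.pos B hB
  have hzs : ‖z - s‖ = r := hz.1
  rw [hzs] at hS
  -- choose R
  obtain ⟨R, hR, hR1, hR2, hR3, hR4, hR5⟩ : ∃ R : ℝ, 0 < R ∧ R ≤ η ∧ R ≤ r ∧ 8 * R ≤ σ ∧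
      8 * R ≤ δ₀ ∧ 8 * R ≤ δ₁ := by
    refine ⟨min η (min r (min (σ / 8) (min (δ₀ / 8) (δ₁ / 8)))), by positivity, min_le_left _ _,
      (min_le_right _ _).trans (min_le_left _ _), ?_, ?_, ?_⟩
    · have : min η (min r (min (σ / 8) (min (δ₀ / 8) (δ₁ / 8)))) ≤ σ / 8 :=
        (min_le_right _ _).trans ((min_le_right _ _).trans (min_le_left _ _))
      linarith
    · have : min η (min r (min (σ / 8) (min (δ₀ / 8) (δ₁ / 8)))) ≤ δ₀ / 8 :=
        (min_le_right _ _).trans ((min_le_right _ _).trans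
          ((min_le_right _ _).trans (min_le_left _ _)))
      linarith
    · have : min η (min r (min (σ / 8) (min (δ₀ / 8) (δ₁ / 8)))) ≤ δ₁ / 8 :=
        (min_le_right _ _).trans ((min_le_right _ _).trans
          ((min_le_right _ _).trans (min_le_right _ _)))
      linarith
  obtain ⟨ε, hε, hε1, hε2, hε3⟩ : ∃ ε : ℝ, 0 < ε ∧ 8 * ε ≤ R ∧ 8 * ε ≤ η ∧ 2 * r * ε ≤ σ * R := by
    refine ⟨min (R / 8) (min (η / 8) (σ * R / (2 * r))), by positivity, ?_, ?_, ?_⟩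
    · have : min (R / 8) (min (η / 8) (σ * R / (2 * r))) ≤ R / 8 := min_le_left _ _
      linarith
    · have : min (R / 8) (min (η / 8) (σ * R / (2 * r))) ≤ η / 8 :=
        (min_le_right _ _).trans (min_le_left _ _)
      linarith
    · have : min (R / 8) (min (η / 8) (σ * R / (2 * r))) ≤ σ * R / (2 * r) :=
        (min_le_right _ _).trans (min_le_right _ _)
      calc 2 * r * min (R / 8) (min (η / 8) (σ * R / (2 * r)))
          ≤ 2 * r * (σ * R / (2 * r)) := by gcongr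
        _ = σ * R := by field_simp
  -- first ball
  obtain ⟨C₂, hC₂, hne₂, ⟨c₂, hc₂, hc₂z⟩, hρ₂⟩ := hcon z (by simpa using hδ₀) hz ε hε
  rw [mem_ball, dist_eq_norm] at hc₂z
  have hBC₂ : ¬ (B ∩ C₂).Nonempty := by
    apply hN C₂ hC₂ hne₂
    refine ⟨c₂, hc₂, ?_⟩
    rw [mem_ball, dist_eq_norm]
    linarith
  set s₂ := c C₂ with hs₂
  set ρ₂ := ρ C₂ with hρ₂def
  have hρ₂p : 0 < ρ₂ := hη.trans_le hρ₂
  have hc₂s : ‖c₂ - s₂‖ ≤ ρ₂ := (H.mem_iff hC₂).1 hc₂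
  set v₂ : X := (1 / ρ₂) • (s₂ - c₂) with hv₂
  have hv₂n : ‖v₂‖ ≤ 1 := by
    rw [hv₂, norm_smul, Real.norm_of_nonneg (by positivity), norm_sub_rev]
    rw [one_div, inv_mul_le_iff₀ hρ₂p]
    linarith
  have hs₂eq : s₂ = c₂ + ρ₂ • v₂ := by
    rw [hv₂, smul_smul]
    have : ρ₂ * (1 / ρ₂) = 1 := by field_simp
    rw [this, one_smul]
    abel
  set n : X := (1 / r) • (z - s) with hn
  have hnn : ‖n‖ = 1 := by
    rw [hn, norm_smul, Real.norm_of_nonneg (by positivity), hzs]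
    field_simp
  have hzeq : z = s + r • n := by
    rw [hn, smul_smul]
    have : r * (1 / r) = 1 := by field_simp
    rw [this, one_smul]
    abel
  set q : X := c₂ + R • (v₂ - n) with hq
  have hRρ₂ : R ≤ ρ₂ := hR1.trans hρ₂
  have hqC₂ : q ∈ C₂ := by
    rw [H.mem_iff hC₂, ← hs₂]
    have h1 : q - s₂ = -((ρ₂ - R) • v₂ + R • n) := by
      rw [hs₂eq, hq, sub_smul, smul_sub]
      abel
    rw [h1, norm_neg]
    calc ‖(ρ₂ - R) • v₂ + R • n‖ ≤ ‖(ρ₂ - R) • v₂‖ + ‖R • n‖ := norm_add_le _ _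
      _ = (ρ₂ - R) * ‖v₂‖ + R * ‖n‖ := by
          rw [norm_smul (ρ₂ - R) v₂, norm_smul R n,
            Real.norm_of_nonneg (by linarith : 0 ≤ ρ₂ - R), Real.norm_of_nonneg hR.le]
      _ ≤ (ρ₂ - R) * 1 + R * 1 := by
          rw [hnn]
          have := mul_le_mul_of_nonneg_left hv₂n (sub_nonneg.2 hRρ₂)
          linarith
      _ = ρ₂ := by ring
  have hqB : r < ‖q - s‖ := by
    have h1 : q ∉ B := fun h => hBC₂ ⟨q, h, hqC₂⟩
    rw [H.mem_iff hB, not_le] at h1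
    exact h1
  have hqle : ‖q - s‖ ≤ r + ε := by
    have h1 : q - s = (c₂ - z) + ((r - R) • n + R • v₂) := by
      rw [hq, hzeq, sub_smul, smul_sub]
      abel
    rw [h1]
    calc ‖(c₂ - z) + ((r - R) • n + R • v₂)‖
        ≤ ‖c₂ - z‖ + (‖(r - R) • n‖ + ‖R • v₂‖) :=
          (norm_add_le _ _).trans (by gcongr; exact norm_add_le _ _)
      _ = ‖c₂ - z‖ + ((r - R) * ‖n‖ + R * ‖v₂‖) := by
          rw [norm_smul (r - R) n, norm_smul R v₂,
            Real.norm_of_nonneg (by linarith : 0 ≤ r - R), Real.norm_of_nonneg hR.le]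
      _ ≤ ε + ((r - R) * 1 + R * 1) := by
          rw [hnn]
          gcongr
      _ = r + ε := by ring
  have hqz : ‖q - z‖ ≤ ε + 2 * R := by
    have h1 : q - z = (c₂ - z) + (R • v₂ - R • n) := by
      rw [hq, smul_sub]
      abel
    rw [h1]
    calc ‖(c₂ - z) + (R • v₂ - R • n)‖ ≤ ‖c₂ - z‖ + (‖R • v₂‖ + ‖R • n‖) :=
          (norm_add_le _ _).trans (by gcongr; exact norm_sub_le _ _)
      _ = ‖c₂ - z‖ + (R * ‖v₂‖ + R * ‖n‖) := by
          rw [norm_smul R v₂, norm_smul R n, Real.norm_of_nonneg hR.le]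
      _ ≤ ε + (R * 1 + R * 1) := by
          rw [hnn]
          gcongr
      _ = ε + 2 * R := by ring
  -- the new sphere point
  have hqp : 0 < ‖q - s‖ := hrp.trans hqB
  set z' : X := s + (r / ‖q - s‖) • (q - s) with hz'
  have hz's : ‖z' - s‖ = r := by
    have h1 : z' - s = (r / ‖q - s‖) • (q - s) := by rw [hz']; abel
    rw [h1, norm_smul, Real.norm_of_nonneg (by positivity)]
    field_simp
  have hqz' : ‖q - z'‖ ≤ ε := by
    have h1 : q - z' = (1 - r / ‖q - s‖) • (q - s) := by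
      rw [hz', sub_smul, one_smul]
      abel
    have h2 : 0 ≤ 1 - r / ‖q - s‖ := by
      rw [sub_nonneg, div_le_one hqp]
      exact hqB.le
    rw [h1, norm_smul, Real.norm_of_nonneg h2]
    have h3 : (1 - r / ‖q - s‖) * ‖q - s‖ = ‖q - s‖ - r := by field_simp
    rw [h3]
    linarith
  have hz'z : ‖z' - z‖ ≤ 2 * ε + 2 * R := by
    have h1 : z' - z = (q - z) - (q - z') := by abel
    rw [h1]
    calc ‖(q - z) - (q - z')‖ ≤ ‖q - z‖ + ‖q - z'‖ := norm_sub_le _ _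
      _ ≤ (ε + 2 * R) + ε := by gcongr
      _ = _ := by ring
  have hz'pr : Pr 𝓑 c ρ B z' := H.pr_near hB hN hz's (by linarith)
  -- second ball
  obtain ⟨δ₃, hδ₃, hN₃⟩ := H.exists_nhd' hz'pr hC₂
  obtain ⟨C₃, hC₃, hne₃, ⟨c₃, hc₃, hc₃z⟩, hρ₃⟩ :=
    hcon z' (by linarith) hz'pr (min ε δ₃) (by positivity)
  rw [mem_ball, dist_eq_norm] at hc₃z
  have hc₃ε : ‖c₃ - z'‖ < ε := hc₃z.trans_le (min_le_left _ _)
  have hdisj : ¬ (C₂ ∩ C₃).Nonempty := by
    apply hN₃ C₃ hC₃ hne₃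
    refine ⟨c₃, hc₃, ?_⟩
    rw [mem_ball, dist_eq_norm]
    exact hc₃z.trans_le (min_le_right _ _)
  have hBC₃ : ¬ (B ∩ C₃).Nonempty := by
    apply hN C₃ hC₃ hne₃
    refine ⟨c₃, hc₃, ?_⟩
    rw [mem_ball, dist_eq_norm]
    have : ‖c₃ - z‖ ≤ ‖c₃ - z'‖ + ‖z' - z‖ := by
      have h1 : c₃ - z = (c₃ - z') + (z' - z) := by abel
      rw [h1]
      exact norm_add_le _ _
    linarith
  set s₃ := c C₃ with hs₃
  set ρ₃ := ρ C₃ with hρ₃def
  have hρ₃p : 0 < ρ₃ := hη.trans_le hρ₃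
  have hc₃s : ‖c₃ - s₃‖ ≤ ρ₃ := (H.mem_iff hC₃).1 hc₃
  set v₃ : X := (1 / ρ₃) • (s₃ - c₃) with hv₃
  have hv₃n : ‖v₃‖ ≤ 1 := by
    rw [hv₃, norm_smul, Real.norm_of_nonneg (by positivity), norm_sub_rev]
    rw [one_div, inv_mul_le_iff₀ hρ₃p]
    linarith
  have hs₃eq : s₃ = c₃ + ρ₃ • v₃ := by
    rw [hv₃, smul_smul]
    have : ρ₃ * (1 / ρ₃) = 1 := by field_simp
    rw [this, one_smul]
    abel
  have hdist₂₃ : ρ₂ + ρ₃ < ‖s₂ - s₃‖ := by
    apply dist_centers hρ₂p hρ₃p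
    rw [← H.eqb C₂ hC₂, ← H.eqb C₃ hC₃]
    exact hdisj
  have hdist₃B : ρ₃ + r < ‖s₃ - s‖ := by
    apply dist_centers hρ₃p hrp
    rw [← H.eqb C₃ hC₃, ← H.eqb B hB, inter_comm]
    exact hBC₃
  obtain ⟨h, hh, hhs⟩ := exists_norming (s₂ - s₃) (by
    intro h0
    rw [h0, norm_zero] at hdist₂₃
    linarith)
  obtain ⟨g, hg, hgs⟩ := exists_norming (s₃ - s) (by
    intro h0
    rw [h0, norm_zero] at hdist₃B
    linarith)
  rw [map_sub] at hhs hgs
  -- estimates for `h`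
  have hhv₂ : h v₂ ≤ 1 := (apply_le_norm hh v₂).trans hv₂n
  have e1 : h s₂ = h c₂ + ρ₂ * h v₂ := by rw [hs₂eq, map_add, map_smul, smul_eq_mul]
  have e2 : h q = h c₂ + R * h v₂ - R * h n := by
    rw [hq, map_add, map_smul, map_sub, smul_eq_mul]; ring
  have e3 : h s₃ = h c₃ + ρ₃ * h v₃ := by rw [hs₃eq, map_add, map_smul, smul_eq_mul]
  have e4 : h (q - c₃) ≤ 2 * ε := by
    refine (apply_le_norm hh _).trans ?_
    have h1 : q - c₃ = (q - z') - (c₃ - z') := by abel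
    rw [h1]
    refine (norm_sub_le _ _).trans ?_
    linarith
  rw [map_sub] at e4
  have e5 : h c₃ - h s₃ ≤ ρ₃ := by
    have := apply_le_norm hh (c₃ - s₃)
    rw [map_sub] at this
    linarith
  have e6 : h s₂ - h q ≤ ρ₂ := by
    have := apply_le_norm hh (s₂ - q)
    rw [map_sub] at this
    have h1 := (H.mem_iff hC₂).1 hqC₂
    rw [norm_sub_rev] at h1
    linarith
  -- (A)
  have hA : R * (1 - h n) ≤ 2 * ε := by
    have := mul_nonneg (sub_nonneg.2 hRρ₂) (sub_nonneg.2 hhv₂)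
    linarith
  -- (B)
  have hBv : ρ₃ * (h v₃ + 1) ≤ 2 * ε := by linarith
  -- estimates for `g`
  have f1 : g s₃ = g c₃ + ρ₃ * g v₃ := by rw [hs₃eq, map_add, map_smul, smul_eq_mul]
  have f2 : g c₃ - g s ≤ r + ε := by
    have h0 := apply_le_norm hg (c₃ - s)
    rw [map_sub] at h0
    have h1 : c₃ - s = (c₃ - z') + (z' - s) := by abel
    have h2 : ‖c₃ - s‖ ≤ ‖c₃ - z'‖ + ‖z' - s‖ := by rw [h1]; exact norm_add_le _ _
    linarith
  have hC : ρ₃ * (1 - g v₃) ≤ ε := by linarith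
  have f3 : g s₃ - g c₃ ≤ ρ₃ := by
    have := apply_le_norm hg (s₃ - c₃)
    rw [map_sub] at this
    rw [norm_sub_rev] at hc₃s
    linarith
  have f4 : r ≤ g c₃ - g s := by linarith
  have f5 : g (c₃ - z) ≤ 3 * ε + 2 * R := by
    refine (apply_le_norm hg _).trans ?_
    have h1 : c₃ - z = (c₃ - z') + (z' - z) := by abel
    rw [h1]
    refine (norm_add_le _ _).trans ?_
    linarith
  rw [map_sub] at f5
  have hD : r - σ ≤ g (z - s) := by
    rw [map_sub]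
    linarith
  have hE : r - σ ≤ h (z - s) := by
    have h1 : z - s = r • n := by rw [hzeq]; abel
    rw [h1, map_smul, smul_eq_mul]
    have h2 : r * (R * (1 - h n)) ≤ σ * R := by
      have := mul_le_mul_of_nonneg_left hA hrp.le
      linarith
    have h3 : R * (r * (1 - h n)) ≤ R * σ := by linarith
    have h4 : r * (1 - h n) ≤ σ := le_of_mul_le_mul_left h3 hR
    linarith
  have hfin := hS g h hg hh hD hE v₃
  have g1 : h v₃ + 1 ≤ 1 / 4 := by
    have h1 : ρ₃ * (h v₃ + 1) ≤ ρ₃ * (1 / 4) := by linarith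
    exact le_of_mul_le_mul_left h1 hρ₃p
  have g2 : 1 - g v₃ ≤ 1 / 4 := by
    have h1 : ρ₃ * (1 - g v₃) ≤ ρ₃ * (1 / 4) := by linarith
    exact le_of_mul_le_mul_left h1 hρ₃p
  linarith

end Pool.Agent.H376R3.StarFin
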