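import Pool.Agent.H376R3.StarFin2

set_option autoImplicit false
set_option linter.unusedSectionVars false

namespace Pool.Agent.H376R3.StarFin

open Metric Set

variable {X : Type*} [NormedAddCommGroup X] [NormedSpace ℝ X]
variable {𝓑 : Set (Set X)} {c : Set X → X} {ρ : Set X → ℝ}

/-- points at which almost norming functionals are locally unique are dense -/
def DenseSm (X : Type*) [NormedAddCommGroup X] [NormedSpace ℝ X] : Prop :=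
  ∀ e : X, e ≠ 0 → ∀ ε > 0, ∃ e' : X, ‖e' - e‖ < ε ∧ Sm e'

lemma Cov.key' (H : Cov 𝓑 c ρ) (hden : DenseSm X) {B : Set X} (hB : B ∈ 𝓑) {z : X}
    (hz : Pr 𝓑 c ρ B z) {δ₀ : ℝ} (hδ₀ : 0 < δ₀) {η : ℝ} (hη : 0 < η) :
    ∃ z', ‖z' - z‖ < δ₀ ∧ Pr 𝓑 c ρ B z' ∧
      ∃ δ > 0, ∀ C ∈ 𝓑, C ≠ B → (C ∩ ball z' δ).Nonempty → ρ C < η := by
  obtain ⟨δ₁, hδ₁, hN⟩ := H.exists_nhd hB hz
  have hrp : 0 < ρ B := H.pos B hB
  have hzs : ‖z - c B‖ = ρ B := hz.1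
  have hne : z - c B ≠ 0 := by
    rw [← norm_ne_zero_iff, hzs]; exact hrp.ne'
  obtain ⟨ε, hε, h1, h2, h3⟩ : ∃ ε : ℝ, 0 < ε ∧ 4 * ε ≤ δ₀ ∧ 4 * ε ≤ δ₁ ∧ 4 * ε ≤ ρ B := by
    refine ⟨min (δ₀ / 4) (min (δ₁ / 4) (ρ B / 4)), by positivity, ?_, ?_, ?_⟩
    · have : min (δ₀ / 4) (min (δ₁ / 4) (ρ B / 4)) ≤ δ₀ / 4 := min_le_left _ _
      linarith
    · have : min (δ₀ / 4) (min (δ₁ / 4) (ρ B / 4)) ≤ δ₁ / 4 :=
        (min_le_right _ _).trans (min_le_left _ _)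
      linarith
    · have : min (δ₀ / 4) (min (δ₁ / 4) (ρ B / 4)) ≤ ρ B / 4 :=
        (min_le_right _ _).trans (min_le_right _ _)
      linarith
  obtain ⟨e', he', hsm⟩ := hden _ hne ε hε
  have habs : |‖e'‖ - ρ B| < ε := by
    rw [← hzs]
    exact (abs_norm_sub_norm_le _ _).trans_lt he'
  have hab := abs_lt.1 habs
  have hep : 0 < ‖e'‖ := by linarith
  have hsm' : Sm ((ρ B / ‖e'‖) • e') := sm_smul hsm (by positivity)
  set z' : X := c B + (ρ B / ‖e'‖) • e' with hz'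
  have h4 : z' - c B = (ρ B / ‖e'‖) • e' := by rw [hz']; abel
  have h5 : ‖z' - c B‖ = ρ B := by
    rw [h4, norm_smul, Real.norm_of_nonneg (by positivity)]
    field_simp
  have h6 : ‖z' - z‖ < 2 * ε := by
    have h7 : z' - z = ((ρ B / ‖e'‖) • e' - e') + (e' - (z - c B)) := by
      rw [hz']; abel
    have h8 : ‖(ρ B / ‖e'‖) • e' - e'‖ < ε := by
      have h9 : (ρ B / ‖e'‖) • e' - e' = (ρ B / ‖e'‖ - 1) • e' := by
        rw [sub_smul, one_smul]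
      rw [h9, norm_smul, Real.norm_eq_abs, ← abs_of_pos hep, ← abs_mul, abs_of_pos hep]
      have : (ρ B / ‖e'‖ - 1) * ‖e'‖ = -(‖e'‖ - ρ B) := by field_simp; ring
      rw [this, abs_neg]
      exact habs
    rw [h7]
    calc _ ≤ ‖(ρ B / ‖e'‖) • e' - e'‖ + ‖e' - (z - c B)‖ := norm_add_le _ _
      _ < 2 * ε := by linarith
  have hpr : Pr 𝓑 c ρ B z' := H.pr_near hB hN h5 (by linarith)
  rw [← h4] at hsm'
  obtain ⟨z'', g1, g2, g3⟩ := H.key hB hpr hsm' (show (0 : ℝ) < δ₀ / 2 by positivity) hη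
  refine ⟨z'', ?_, g2, g3⟩
  have h7 : z'' - z = (z'' - z') + (z' - z) := by abel
  rw [h7]
  calc _ ≤ ‖z'' - z'‖ + ‖z' - z‖ := norm_add_le _ _
    _ < δ₀ := by linarith

/-- all other members near `z` are small -/
def P0 (𝓑 : Set (Set X)) (ρ : Set X → ℝ) (B : Set X) (z : X) : Prop :=
  ∀ η > 0, ∃ δ > 0, ∀ C ∈ 𝓑, C ≠ B → (C ∩ ball z δ).Nonempty → ρ C < η

lemma Cov.baire [CompleteSpace X] (H : Cov 𝓑 c ρ) (hden : DenseSm X) {B : Set X} (hB : B ∈ 𝓑)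
    {z₀ : X} (hz₀ : Pr 𝓑 c ρ B z₀) {δ₀ : ℝ} (hδ₀ : 0 < δ₀) :
    ∃ z, ‖z - z₀‖ < δ₀ ∧ Pr 𝓑 c ρ B z ∧ P0 𝓑 ρ B z := by
  classical
  let S := {x : X // ‖x - c B‖ = ρ B}
  have hScl : IsClosed {x : X | ‖x - c B‖ = ρ B} :=
    isClosed_eq (by fun_prop) continuous_const
  have : CompleteSpace S := hScl.completeSpace_coe
  let Ω : Set S := {x | Pr 𝓑 c ρ B x.1}
  have hΩ : IsOpen Ω := by
    rw [Metric.isOpen_iff]
    intro x hx
    obtain ⟨δ, hδ, hN⟩ := H.exists_nhd hB hx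
    refine ⟨δ, hδ, fun y hy => ?_⟩
    have : ‖y.1 - x.1‖ < δ := by
      rw [← dist_eq_norm]; exact hy
    exact H.pr_near hB hN y.2 this
  let O : ℕ → Set S := fun n => {x | ∃ δ > 0, ∀ C ∈ 𝓑, C ≠ B →
    (C ∩ ball x.1 δ).Nonempty → ρ C < 1 / ((n : ℝ) + 1)}
  have hO : ∀ n, IsOpen (O n) := by
    intro n
    rw [Metric.isOpen_iff]
    rintro x ⟨δ, hδ, hx⟩
    refine ⟨δ / 2, by positivity, fun y hy => ⟨δ / 2, by positivity, fun C hC hne hCy => ?_⟩⟩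
    apply hx C hC hne
    obtain ⟨w, hw, hwy⟩ := hCy
    refine ⟨w, hw, ?_⟩
    have h1 : dist y.1 x.1 < δ / 2 := hy
    rw [mem_ball] at hwy ⊢
    calc dist w x.1 ≤ dist w y.1 + dist y.1 x.1 := dist_triangle _ _ _
      _ < δ := by linarith
  let U : ℕ → Set S := fun n => O n ∪ (closure Ω)ᶜ
  have hU : ∀ n, IsOpen (U n) := fun n => (hO n).union isClosed_closure.isOpen_compl
  have hUd : ∀ n, Dense (U n) := by
    intro n
    rw [dense_iff_inter_open]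
    intro V hV ⟨x, hx⟩
    by_cases hxc : x ∈ closure Ω
    · obtain ⟨y, hyV, hyΩ⟩ := mem_closure_iff.1 hxc V hV hx
      obtain ⟨δ, hδ, hδV⟩ := Metric.isOpen_iff.1 hV y hyV
      obtain ⟨z', h1, h2, h3⟩ := H.key' hden hB hyΩ hδ
        (show (0 : ℝ) < 1 / ((n : ℝ) + 1) by positivity)
      refine ⟨⟨z', h2.1⟩, hδV ?_, Or.inl h3⟩
      change dist z' y.1 < δ
      rw [dist_eq_norm]
      exact h1
    · exact ⟨x, hx, Or.inr hxc⟩
  have hD : Dense (⋂ n, U n) := dense_iInter_of_isOpen_nat hU hUd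
  have hW : IsOpen (Ω ∩ ball (⟨z₀, hz₀.1⟩ : S) δ₀) := hΩ.inter isOpen_ball
  obtain ⟨z, ⟨hzΩ, hzb⟩, hzU⟩ := hD.inter_open_nonempty _ hW
    ⟨⟨z₀, hz₀.1⟩, hz₀, mem_ball_self hδ₀⟩
  refine ⟨z.1, ?_, hzΩ, fun η hη => ?_⟩
  · rw [← dist_eq_norm]; exact hzb
  · obtain ⟨n, hn⟩ := exists_nat_one_div_lt hη
    rw [mem_iInter] at hzU
    rcases hzU n with h | h
    · obtain ⟨δ, hδ, h1⟩ := h
      exact ⟨δ, hδ, fun C hC hne hCz => (h1 C hC hne hCz).trans hn⟩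
    · exact absurd (subset_closure hzΩ) h

lemma Cov.step [CompleteSpace X] (H : Cov 𝓑 c ρ) (hinf : ¬ FiniteDimensional ℝ X)
    (hden : DenseSm X) {B : Set X} (hB : B ∈ 𝓑)
    {z : X} (hz : Pr 𝓑 c ρ B z) (hP : P0 𝓑 ρ B z) {δ : ℝ} (hδ : 0 < δ) {η : ℝ} (hη : 0 < η) :
    ∃ B' ∈ 𝓑, B' ≠ B ∧ ∃ z', Pr 𝓑 c ρ B' z' ∧ P0 𝓑 ρ B' z' ∧ ∃ δ' > 0, δ' ≤ δ / 2 ∧
      closedBall z' δ' ⊆ ball z δ ∧
      ∀ C ∈ 𝓑, C ≠ B' → (C ∩ ball z' δ').Nonempty → ρ C < η := by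
  obtain ⟨δ₁, hδ₁, h1⟩ := hP (δ / 16) (by positivity)
  have hrp : 0 < ρ B := H.pos B hB
  have hzs : ‖z - c B‖ = ρ B := hz.1
  -- a point outside `B`
  set δ₂ : ℝ := min δ₁ (δ / 4) / 2 with hδ₂
  have hδ₂p : 0 < δ₂ := by positivity
  have hδ₂a : δ₂ < δ₁ := by
    have : min δ₁ (δ / 4) ≤ δ₁ := min_le_left _ _
    rw [hδ₂]; linarith [lt_min hδ₁ (show (0 : ℝ) < δ / 4 by positivity)]
  have hδ₂b : δ₂ ≤ δ / 8 := by
    have : min δ₁ (δ / 4) ≤ δ / 4 := min_le_right _ _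
    rw [hδ₂]; linarith
  set x : X := z + (δ₂ / ρ B) • (z - c B) with hx
  have hxz : ‖x - z‖ = δ₂ := by
    have : x - z = (δ₂ / ρ B) • (z - c B) := by rw [hx]; abel
    rw [this, norm_smul, hzs, Real.norm_of_nonneg (by positivity)]
    field_simp
  have hxB : x ∉ B := by
    rw [H.mem_iff hB, not_le]
    have : x - c B = (1 + δ₂ / ρ B) • (z - c B) := by
      rw [hx, add_smul, one_smul]; abel
    rw [this, norm_smul, hzs, Real.norm_of_nonneg (by positivity)]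
    have : (1 + δ₂ / ρ B) * ρ B = ρ B + δ₂ := by field_simp
    rw [this]; linarith
  obtain ⟨B', hB', hxB'⟩ := H.covers x
  have hne : B' ≠ B := by rintro rfl; exact hxB hxB'
  have hρ' : ρ B' < δ / 16 := h1 B' hB' hne ⟨x, hxB', by
    rw [mem_ball, dist_eq_norm, hxz]; exact hδ₂a⟩
  obtain ⟨z₁, hz₁⟩ := H.exists_pr hinf hB'
  obtain ⟨z', hz'1, hz', hPz'⟩ := H.baire hden hB' hz₁ (show (0 : ℝ) < 1 by norm_num)
  obtain ⟨δ₃, hδ₃, h3⟩ := hPz' η hη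
  have hz'z : ‖z' - z‖ ≤ δ / 2 := by
    have e1 : z' - z = (z' - c B') - (x - c B') + (x - z) := by abel
    have e2 : ‖x - c B'‖ ≤ ρ B' := (H.mem_iff hB').1 hxB'
    have e3 : ‖z' - c B'‖ = ρ B' := hz'.1
    calc ‖z' - z‖ ≤ ‖(z' - c B') - (x - c B')‖ + ‖x - z‖ := by rw [e1]; exact norm_add_le _ _
      _ ≤ (‖z' - c B'‖ + ‖x - c B'‖) + ‖x - z‖ := by gcongr; exact norm_sub_le _ _
      _ ≤ δ / 2 := by linarith
  refine ⟨B', hB', hne, z', hz', hPz', min δ₃ (δ / 4), by positivity, ?_, ?_, ?_⟩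
  · have : min δ₃ (δ / 4) ≤ δ / 4 := min_le_right _ _
    linarith
  · intro y hy
    have h4 : min δ₃ (δ / 4) ≤ δ / 4 := min_le_right _ _
    rw [mem_closedBall] at hy
    rw [mem_ball]
    calc dist y z ≤ dist y z' + dist z' z := dist_triangle _ _ _
      _ ≤ δ / 4 + δ / 2 := by
          rw [dist_eq_norm z' z]
          linarith
      _ < δ := by linarith
  · intro C hC hCne hCz
    apply h3 C hC hCne
    obtain ⟨w, hw, hwz⟩ := hCz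
    exact ⟨w, hw, ball_subset_ball (min_le_left _ _) hwz⟩

/-- no irredundant star-finite cover -/
theorem Cov.false [CompleteSpace X] (H : Cov 𝓑 c ρ) (hinf : ¬ FiniteDimensional ℝ X)
    (hden : DenseSm X) : False := by
  classical
  let Good : ℕ → (Set X × X × ℝ) → Prop := fun n s => s.1 ∈ 𝓑 ∧ Pr 𝓑 c ρ s.1 s.2.1 ∧
    P0 𝓑 ρ s.1 s.2.1 ∧ 0 < s.2.2 ∧
    ∀ C ∈ 𝓑, C ≠ s.1 → (C ∩ ball s.2.1 s.2.2).Nonempty → ρ C < 1 / ((n : ℝ) + 1)
  have step : ∀ n s, Good n s → ∃ s' : Set X × X × ℝ, Good (n + 1) s' ∧ s'.1 ≠ s.1 ∧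
      closedBall s'.2.1 s'.2.2 ⊆ ball s.2.1 s.2.2 ∧ s'.2.2 ≤ s.2.2 / 2 := by
    rintro n ⟨B, z, δ⟩ ⟨hB, hz, hP, hδ, -⟩
    obtain ⟨B', hB', hne, z', hz', hP', δ', hδ', h1, h2, h3⟩ := H.step hinf hden hB hz hP hδ
      (show (0 : ℝ) < 1 / (((n + 1 : ℕ) : ℝ) + 1) by positivity)
    exact ⟨⟨B', z', δ'⟩, ⟨hB', hz', hP', hδ', h3⟩, hne, h2, h1⟩
  obtain ⟨s₀, hs₀⟩ : ∃ s, Good 0 s := by
    obtain ⟨B, hB, -⟩ := H.covers 0
    obtain ⟨z₀, hz₀⟩ := H.exists_pr hinf hB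
    obtain ⟨z, -, hz, hP⟩ := H.baire hden hB hz₀ one_pos
    obtain ⟨δ, hδ, h⟩ := hP (1 / (((0 : ℕ) : ℝ) + 1)) (by positivity)
    exact ⟨⟨B, z, δ⟩, hB, hz, hP, hδ, h⟩
  choose! f hf using step
  let u : ℕ → (Set X × X × ℝ) := fun n => Nat.rec s₀ (fun n s => f n s) n
  have hu : ∀ n, Good n (u n) := by
    intro n
    induction n with
    | zero => exact hs₀
    | succ n ih => exact (hf n _ ih).1
  have hu1 : ∀ n, (u (n + 1)).1 ≠ (u n).1 := fun n => (hf n _ (hu n)).2.1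
  have hu2 : ∀ n, closedBall (u (n + 1)).2.1 (u (n + 1)).2.2 ⊆ ball (u n).2.1 (u n).2.2 :=
    fun n => (hf n _ (hu n)).2.2.1
  have hu3 : ∀ n, (u (n + 1)).2.2 ≤ (u n).2.2 / 2 := fun n => (hf n _ (hu n)).2.2.2
  have hpos : ∀ n, 0 < (u n).2.2 := fun n => (hu n).2.2.2.1
  have hanti : ∀ n k, closedBall (u (n + k)).2.1 (u (n + k)).2.2 ⊆
      closedBall (u n).2.1 (u n).2.2 := by
    intro n k
    induction k with
    | zero => exact subset_rfl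
    | succ k ih =>
      exact ((hu2 (n + k)).trans ball_subset_closedBall).trans ih
  have hgeo : ∀ n, (u n).2.2 ≤ (u 0).2.2 / 2 ^ n := by
    intro n
    induction n with
    | zero => simp
    | succ n ih =>
      calc (u (n + 1)).2.2 ≤ (u n).2.2 / 2 := hu3 n
        _ ≤ ((u 0).2.2 / 2 ^ n) / 2 := by gcongr
        _ = (u 0).2.2 / 2 ^ (n + 1) := by rw [pow_succ]; field_simp
  have hdist : ∀ n, dist (u n).2.1 (u (n + 1)).2.1 ≤ 2 * (u 0).2.2 / 2 / 2 ^ n := by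
    intro n
    have h1 : (u (n + 1)).2.1 ∈ ball (u n).2.1 (u n).2.2 :=
      hu2 n (mem_closedBall_self (hpos (n + 1)).le)
    rw [mem_ball, dist_comm] at h1
    calc _ ≤ (u n).2.2 := h1.le
      _ ≤ (u 0).2.2 / 2 ^ n := hgeo n
      _ = _ := by ring
  have hcau : CauchySeq (fun n => (u n).2.1) := cauchySeq_of_le_geometric_two hdist
  obtain ⟨x, hx⟩ := cauchySeq_tendsto_of_complete hcau
  have hxc : ∀ n, x ∈ closedBall (u n).2.1 (u n).2.2 := by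
    intro n
    apply isClosed_closedBall.mem_of_tendsto hx
    filter_upwards [Filter.eventually_ge_atTop n] with m hm
    obtain ⟨k, rfl⟩ := Nat.exists_eq_add_of_le hm
    exact hanti n k (mem_closedBall_self (hpos (n + k)).le)
  have hxb : ∀ n, x ∈ ball (u n).2.1 (u n).2.2 := fun n => hu2 n (hxc (n + 1))
  obtain ⟨D, hD, hxD⟩ := H.covers x
  have hDp := H.pos D hD
  obtain ⟨N, hN⟩ := exists_nat_one_div_lt hDp
  have hDu : ∀ n, N ≤ n → D = (u n).1 := by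
    intro n hn
    by_contra hne
    have h1 := (hu n).2.2.2.2 D hD hne ⟨x, hxD, hxb n⟩
    have h2 : (1 : ℝ) / ((n : ℝ) + 1) ≤ 1 / ((N : ℝ) + 1) := by
      apply one_div_le_one_div_of_le (by positivity)
      have : (N : ℝ) ≤ n := by exact_mod_cast hn
      linarith
    linarith
  exact hu1 N ((hDu (N + 1) (by omega)).symm.trans (hDu N le_rfl))

/-- every star-finite cover by balls contains an irredundant one -/
lemma exists_cov {𝒞 : Set (Set X)}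
    (hb : ∀ B ∈ 𝒞, ∃ c : X, ∃ r : ℝ, 0 < r ∧ B = closedBall c r)
    (hcov : ⋃₀ 𝒞 = univ) (hsf : ∀ B ∈ 𝒞, {B' ∈ 𝒞 | (B ∩ B').Nonempty}.Finite) :
    ∃ (𝓑 : Set (Set X)) (c : Set X → X) (ρ : Set X → ℝ), 𝓑 ⊆ 𝒞 ∧ Cov 𝓑 c ρ := by
  classical
  have hpf : ∀ x : X, {B ∈ 𝒞 | x ∈ B}.Finite := by
    intro x
    have hx : x ∈ ⋃₀ 𝒞 := by rw [hcov]; trivial
    obtain ⟨B, hB, hxB⟩ := hx
    exact (hsf B hB).subset (fun B' hB' => ⟨hB'.1, ⟨x, hxB, hB'.2⟩⟩)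
  obtain ⟨𝓑, hmin⟩ := zorn_superset {𝒟 : Set (Set X) | 𝒟 ⊆ 𝒞 ∧ ∀ x : X, ∃ B ∈ 𝒟, x ∈ B} (by
    intro ch hch hchain
    rcases ch.eq_empty_or_nonempty with rfl | hne
    · refine ⟨𝒞, ⟨subset_rfl, fun x => ?_⟩, by simp⟩
      have hx : x ∈ ⋃₀ 𝒞 := by rw [hcov]; trivial
      obtain ⟨B, hB, hxB⟩ := hx
      exact ⟨B, hB, hxB⟩
    · refine ⟨⋂₀ ch, ⟨?_, ?_⟩, fun s hs => sInter_subset_of_mem hs⟩
      · obtain ⟨s, hs⟩ := hne
        exact (sInter_subset_of_mem hs).trans (hch hs).1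
      · intro x
        by_contra hcon
        push Not at hcon
        have hdir : DirectedOn (fun i j : Set (Set X) => iᶜ ⊆ jᶜ) ch := by
          intro s hs t ht
          rcases hchain.total hs ht with h | h
          · exact ⟨s, hs, subset_rfl, compl_subset_compl.2 h⟩
          · exact ⟨t, ht, compl_subset_compl.2 h, subset_rfl⟩
        obtain ⟨𝒟, h𝒟, hsub⟩ := DirectedOn.exists_mem_subset_of_finset_subset_biUnion
          (f := fun i : Set (Set X) => iᶜ) hne hdir (s := (hpf x).toFinset) (by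
            intro B hB
            rw [Finite.coe_toFinset] at hB
            have h1 : B ∉ ⋂₀ ch := fun h => hcon B h hB.2
            rw [mem_sInter] at h1
            push Not at h1
            obtain ⟨t, ht, hBt⟩ := h1
            simp only [mem_iUnion]
            exact ⟨t, ht, hBt⟩)
        obtain ⟨B, hB, hxB⟩ := (hch h𝒟).2 x
        exact hsub (by rw [Finite.coe_toFinset]; exact ⟨(hch h𝒟).1 hB, hxB⟩) hB)
  have h1 : 𝓑 ⊆ 𝒞 := hmin.prop.1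
  have h2 : ∀ x : X, ∃ B ∈ 𝓑, x ∈ B := hmin.prop.2
  choose! c ρ hcρ using hb
  refine ⟨𝓑, c, ρ, h1, fun B hB => (hcρ B (h1 hB)).1, fun B hB => (hcρ B (h1 hB)).2, h2,
    fun B hB => (hsf B (h1 hB)).subset (fun B' hB' => ⟨h1 hB'.1, hB'.2⟩), fun B hB => ?_⟩
  by_contra hcon
  push Not at hcon
  have h3 : 𝓑 \ {B} ∈ {𝒟 : Set (Set X) | 𝒟 ⊆ 𝒞 ∧ ∀ x : X, ∃ B ∈ 𝒟, x ∈ B} := by
    refine ⟨sdiff_subset.trans h1, fun x => ?_⟩
    obtain ⟨B₁, hB₁, hx⟩ := h2 x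
    by_cases h : B₁ = B
    · subst h
      obtain ⟨B', hB', hne, hxB'⟩ := hcon x hx
      exact ⟨B', ⟨hB', hne⟩, hxB'⟩
    · exact ⟨B₁, ⟨hB₁, h⟩, hx⟩
  exact (hmin.le_of_le h3 sdiff_subset hB).2 rfl

/-- main theorem -/
theorem no_star_finite [CompleteSpace X] (hinf : ¬ FiniteDimensional ℝ X)
    (hden : DenseSm X) {𝒞 : Set (Set X)}
    (hb : ∀ B ∈ 𝒞, ∃ c : X, ∃ r : ℝ, 0 < r ∧ B = closedBall c r)
    (hcov : ⋃₀ 𝒞 = univ) (hsf : ∀ B ∈ 𝒞, {B' ∈ 𝒞 | (B ∩ B').Nonempty}.Finite) : False := by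
  obtain ⟨𝓑, c, ρ, -, H⟩ := exists_cov hb hcov hsf
  exact H.false hinf hden

lemma denseSm_of_differentiable (h : ∀ x : X, x ≠ 0 → DifferentiableAt ℝ (fun y : X => ‖y‖) x) :
    DenseSm X := fun e he ε hε => ⟨e, by simpa using hε, sm_of_differentiableAt (h e he)⟩

end Pool.Agent.H376R3.StarFin
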